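import Mathlib

set_option autoImplicit false

/-!
# From values along `C (k+1) b^{2k}` to all `n`
-/

namespace Pool.H67.Esq

lemma analytic_interp (f : ℕ → ℕ) (hmono : Monotone f) (h1 : ∀ n, 1 ≤ n → 2 ≤ f n)
    (b : ℕ) (hb : 2 ≤ b) (C : ℕ) (hC : 1 ≤ C) (δ : ℝ) (hδ : 0 < δ) (K0 : ℕ)
    (h : ∀ k, K0 ≤ k → Real.exp (δ * ((k : ℝ) + 1) * (b : ℝ) ^ k)
      ≤ f (C * ((k + 1) * b ^ (2 * k)))) :
    ∃ c : ℝ, 0 < c ∧ ∀ n : ℕ, 2 ≤ n →
      Real.exp (c * Real.sqrt ((n : ℝ) * Real.log n)) ≤ f n := by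
  have hbpos : (0 : ℝ) < b := by positivity
  have hCr : (1 : ℝ) ≤ C := by exact_mod_cast hC
  set Lc : ℝ := Real.log C + 1 + 2 * Real.log b with hLc
  have hlogb : 0 < Real.log b := Real.log_pos (by exact_mod_cast hb)
  have hlogC : 0 ≤ Real.log C := Real.log_nonneg hCr
  have hLpos : 0 < Lc := by rw [hLc]; linarith
  set c1 : ℝ := δ / (b * Real.sqrt (2 * C * Lc)) with hc1
  have hs : 0 < Real.sqrt (2 * C * Lc) := Real.sqrt_pos.2 (by positivity)
  have hc1pos : 0 < c1 := by rw [hc1]; positivity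
  set n0 : ℕ := C * ((K0 + 1) * b ^ (2 * K0)) + 2 with hn0
  have hlogn0 : 0 < (n0 : ℝ) * Real.log n0 := by
    have : (1 : ℝ) < n0 := by
      rw [hn0]; push_cast
      have : (0 : ℝ) ≤ (C : ℝ) * (((K0 : ℝ) + 1) * (b : ℝ) ^ (2 * K0)) := by positivity
      linarith
    exact mul_pos (by linarith) (Real.log_pos this)
  set c2 : ℝ := Real.log 2 / Real.sqrt ((n0 : ℝ) * Real.log n0) with hc2
  have hc2pos : 0 < c2 := div_pos (Real.log_pos (by norm_num)) (Real.sqrt_pos.2 hlogn0)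
  refine ⟨min c1 c2, lt_min hc1pos hc2pos, ?_⟩
  intro n hn
  have hn1 : (1 : ℝ) ≤ n := by
    have : (2 : ℝ) ≤ n := by exact_mod_cast hn
    linarith
  have hlogn : 0 ≤ Real.log n := Real.log_nonneg hn1
  by_cases hcase : n < n0
  · have hle : min c1 c2 * Real.sqrt ((n : ℝ) * Real.log n) ≤ Real.log 2 := by
      have h2 : Real.sqrt ((n : ℝ) * Real.log n) ≤ Real.sqrt ((n0 : ℝ) * Real.log n0) := by
        apply Real.sqrt_le_sqrt
        have h3 : (n : ℝ) ≤ n0 := by exact_mod_cast hcase.le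
        exact mul_le_mul h3 (Real.log_le_log (by linarith) h3) hlogn (by linarith)
      calc min c1 c2 * Real.sqrt ((n : ℝ) * Real.log n)
          ≤ c2 * Real.sqrt ((n0 : ℝ) * Real.log n0) :=
            mul_le_mul (min_le_right _ _) h2 (Real.sqrt_nonneg _) hc2pos.le
        _ = Real.log 2 := by
            rw [hc2, div_mul_cancel₀]
            exact (Real.sqrt_pos.2 hlogn0).ne'
    calc Real.exp (min c1 c2 * Real.sqrt ((n : ℝ) * Real.log n)) ≤ Real.exp (Real.log 2) :=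
          Real.exp_le_exp.2 hle
      _ = 2 := Real.exp_log (by norm_num)
      _ ≤ f n := by exact_mod_cast h1 n (by omega)
  · have hn0n : C * ((K0 + 1) * b ^ (2 * K0)) ≤ n := by omega
    have hex : ∃ k, K0 ≤ k ∧ n < C * ((k + 1 + 1) * b ^ (2 * (k + 1))) := by
      refine ⟨max K0 n, le_max_left _ _, ?_⟩
      have h2 : n ≤ max K0 n := le_max_right _ _
      have h3 : 1 ≤ b ^ (2 * (max K0 n + 1)) := Nat.one_le_pow _ _ (by omega)
      calc n < max K0 n + 1 + 1 := by omega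
        _ = 1 * ((max K0 n + 1 + 1) * 1) := by ring
        _ ≤ C * ((max K0 n + 1 + 1) * b ^ (2 * (max K0 n + 1))) :=
            Nat.mul_le_mul hC (Nat.mul_le_mul le_rfl h3)
    classical
    obtain ⟨k, ⟨hk1, hk2⟩, hk3⟩ : ∃ k, (K0 ≤ k ∧ n < C * ((k + 1 + 1) * b ^ (2 * (k + 1)))) ∧
        C * ((k + 1) * b ^ (2 * k)) ≤ n := by
      refine ⟨Nat.find hex, Nat.find_spec hex, ?_⟩
      rcases Nat.eq_or_lt_of_le (Nat.find_spec hex).1 with h2 | h2
      · rw [← h2]; exact hn0n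
      · obtain ⟨m, hm⟩ : ∃ m, Nat.find hex = m + 1 := ⟨Nat.find hex - 1, by omega⟩
        have h3 := Nat.find_min hex (m := m) (by omega)
        rw [hm]
        by_contra h4
        apply h3
        exact ⟨by omega, by omega⟩
    have hfk := h k hk1
    have hfn : (f (C * ((k + 1) * b ^ (2 * k))) : ℝ) ≤ f n := by exact_mod_cast hmono hk3
    refine le_trans ?_ (hfk.trans hfn)
    apply Real.exp_le_exp.2
    -- main inequality
    have hk0 : (0 : ℝ) ≤ k := Nat.cast_nonneg k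
    set M : ℝ := C * (((k : ℝ) + 2) * (b : ℝ) ^ (2 * (k + 1))) with hM
    have hnM : (n : ℝ) ≤ M := by
      have : (n : ℝ) < ((C * ((k + 1 + 1) * b ^ (2 * (k + 1))) : ℕ) : ℝ) := by exact_mod_cast hk2
      rw [hM]; push_cast at this; linarith
    have hMpos : 0 < M := by linarith
    have hlogM : Real.log M ≤ ((k : ℝ) + 1) * Lc := by
      rw [hM, Real.log_mul (by positivity) (by positivity),
        Real.log_mul (by positivity) (by positivity), Real.log_pow]
      have h2 : Real.log ((k : ℝ) + 2) ≤ (k : ℝ) + 1 := by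
        have := Real.log_le_sub_one_of_pos (show (0 : ℝ) < (k : ℝ) + 2 by linarith)
        linarith
      have h3 : Real.log C ≤ ((k : ℝ) + 1) * Real.log C := by nlinarith
      rw [hLc]; push_cast
      nlinarith
    have hM2 : M ≤ 2 * C * ((k : ℝ) + 1) * ((b : ℝ) ^ (k + 1)) ^ 2 := by
      rw [hM, ← pow_mul, mul_comm (k + 1) 2]
      have h5 : (0 : ℝ) < (b : ℝ) ^ (2 * (k + 1)) := by positivity
      have h6 : (k : ℝ) + 2 ≤ 2 * ((k : ℝ) + 1) := by linarith
      calc (C : ℝ) * (((k : ℝ) + 2) * (b : ℝ) ^ (2 * (k + 1)))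
          ≤ C * ((2 * ((k : ℝ) + 1)) * (b : ℝ) ^ (2 * (k + 1))) :=
            mul_le_mul_of_nonneg_left (mul_le_mul_of_nonneg_right h6 h5.le) (by linarith)
        _ = _ := by ring
    have hprod : (n : ℝ) * Real.log n
        ≤ (((k : ℝ) + 1) * (b : ℝ) ^ (k + 1)) ^ 2 * (2 * C * Lc) := by
      calc (n : ℝ) * Real.log n ≤ M * Real.log M :=
            mul_le_mul hnM (Real.log_le_log (by linarith) hnM) hlogn hMpos.le
        _ ≤ (2 * C * ((k : ℝ) + 1) * ((b : ℝ) ^ (k + 1)) ^ 2) * (((k : ℝ) + 1) * Lc) := by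
            apply mul_le_mul hM2 hlogM
            · exact Real.log_nonneg (by linarith)
            · positivity
        _ = _ := by ring
    have hsqrt : Real.sqrt ((n : ℝ) * Real.log n)
        ≤ (((k : ℝ) + 1) * (b : ℝ) ^ (k + 1)) * Real.sqrt (2 * C * Lc) := by
      calc Real.sqrt ((n : ℝ) * Real.log n)
          ≤ Real.sqrt ((((k : ℝ) + 1) * (b : ℝ) ^ (k + 1)) ^ 2 * (2 * C * Lc)) :=
            Real.sqrt_le_sqrt hprod
        _ = _ := by
            rw [Real.sqrt_mul (by positivity), Real.sqrt_sq (by positivity)]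
    calc min c1 c2 * Real.sqrt ((n : ℝ) * Real.log n)
        ≤ c1 * ((((k : ℝ) + 1) * (b : ℝ) ^ (k + 1)) * Real.sqrt (2 * C * Lc)) :=
          mul_le_mul (min_le_left _ _) hsqrt (Real.sqrt_nonneg _) hc1pos.le
      _ = δ * ((k : ℝ) + 1) * (b : ℝ) ^ k := by
          rw [hc1, pow_succ]
          field_simp

/-- `exp(c √(n log n))` is not bounded by `exp(√(C n))`. -/
lemma not_le_exp_sqrt (f : ℕ → ℕ) (c : ℝ) (hc : 0 < c)
    (h : ∀ n : ℕ, 2 ≤ n → Real.exp (c * Real.sqrt ((n : ℝ) * Real.log n)) ≤ f n)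
    (C : ℝ) (hC : ∀ n : ℕ, (f n : ℝ) ≤ Real.exp (Real.sqrt (C * n))) : False := by
  obtain ⟨m, hm⟩ := exists_nat_gt (Real.exp (|C| / c ^ 2) + 2)
  have hm2 : (2 : ℝ) < m := by
    have := Real.exp_pos (|C| / c ^ 2)
    linarith
  have h1 := (h m (by exact_mod_cast hm2.le)).trans (hC m)
  rw [Real.exp_le_exp] at h1
  have hmpos : (0 : ℝ) < m := by linarith
  have hlog : |C| / c ^ 2 < Real.log m := by
    rw [Real.lt_log_iff_exp_lt hmpos]; linarith
  have hlogpos : 0 < Real.log m := Real.log_pos (by linarith)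
  have h2 : Real.sqrt (C * m) ≤ Real.sqrt (|C| * m) :=
    Real.sqrt_le_sqrt (mul_le_mul_of_nonneg_right (le_abs_self C) hmpos.le)
  have h3 : (c * Real.sqrt ((m : ℝ) * Real.log m)) ^ 2 ≤ (Real.sqrt (|C| * m)) ^ 2 :=
    pow_le_pow_left₀ (by positivity) (h1.trans h2) 2
  rw [mul_pow, Real.sq_sqrt (by positivity), Real.sq_sqrt (by positivity)] at h3
  have h4 : |C| < c ^ 2 * Real.log m := by
    rw [div_lt_iff₀ (by positivity)] at hlog
    linarith
  have h5 : |C| * m < c ^ 2 * Real.log m * m := mul_lt_mul_of_pos_right h4 hmpos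
  nlinarith

end Pool.H67.Esq
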