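import Pool.Agent.H67.Esq.Filt

set_option autoImplicit false

/-!
# Conjugation action on `F_p[G]`, balls span modulo `Δ^{m+1}`, commutators
-/

namespace Pool.H67.Esq

variable {p : ℕ} [Fact p.Prime] {G : Type*} [Group G]


lemma e_mul_inv (g : G) : (MonoidAlgebra.of (ZMod p) G) g * (MonoidAlgebra.of (ZMod p) G) g⁻¹ = 1 := by
  rw [← map_mul, mul_inv_cancel, map_one]

lemma e_inv_mul (g : G) : (MonoidAlgebra.of (ZMod p) G) g⁻¹ * (MonoidAlgebra.of (ZMod p) G) g = 1 := by
  rw [← map_mul, inv_mul_cancel, map_one]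

/-- induction principle: a submodule containing all group elements is everything. -/
lemma mem_of_forall_of (W : Submodule (ZMod p) (MonoidAlgebra (ZMod p) G)) (h : ∀ g : G, (MonoidAlgebra.of (ZMod p) G) g ∈ W) (f : (MonoidAlgebra (ZMod p) G)) : f ∈ W := by
  induction f using MonoidAlgebra.induction_on with
  | of g => exact h g
  | add a b ha hb => exact W.add_mem ha hb
  | smul c a ha => exact W.smul_mem c ha

/-- conjugation `a ↦ g a g⁻¹` as a homomorphism to the endomorphism ring. -/
noncomputable def conjHom : G →* Module.End (ZMod p) (MonoidAlgebra (ZMod p) G) where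
  toFun g := LinearMap.mulLeft (ZMod p) ((MonoidAlgebra.of (ZMod p) G) g) * LinearMap.mulRight (ZMod p) ((MonoidAlgebra.of (ZMod p) G) g⁻¹)
  map_one' := by
    apply LinearMap.ext
    intro a
    simp only [Module.End.mul_apply, LinearMap.mulLeft_apply, LinearMap.mulRight_apply, map_one,
      inv_one, one_mul, mul_one, Module.End.one_apply]
  map_mul' g h := by
    apply LinearMap.ext
    intro a
    simp only [Module.End.mul_apply, LinearMap.mulLeft_apply, LinearMap.mulRight_apply, map_mul,
      mul_inv_rev]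
    noncomm_ring

/-- the action of the group algebra by conjugation. -/
noncomputable def act : (MonoidAlgebra (ZMod p) G) →ₐ[(ZMod p)] Module.End (ZMod p) (MonoidAlgebra (ZMod p) G) := MonoidAlgebra.lift (ZMod p) (Module.End (ZMod p) (MonoidAlgebra (ZMod p) G)) G conjHom

lemma act_of (g : G) (a : (MonoidAlgebra (ZMod p) G)) : act ((MonoidAlgebra.of (ZMod p) G) g) a = (MonoidAlgebra.of (ZMod p) G) g * a * (MonoidAlgebra.of (ZMod p) G) g⁻¹ := by
  simp only [act, MonoidAlgebra.lift_of]
  show (MonoidAlgebra.of (ZMod p) G) g * (a * (MonoidAlgebra.of (ZMod p) G) g⁻¹) = _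
  rw [mul_assoc]

lemma act_sub_aug_mem {n : ℕ} {a : (MonoidAlgebra (ZMod p) G)} (ha : a ∈ augPow p G n) (f : (MonoidAlgebra (ZMod p) G)) :
    act f a - aug p G f • a ∈ augPow p G (n + 1) := by
  let W : Submodule (ZMod p) (MonoidAlgebra (ZMod p) G) :=
    { carrier := {f | act f a - aug p G f • a ∈ augPow p G (n + 1)}
      add_mem' := by
        intro x y hx hy
        have : act (x + y) a - aug p G (x + y) • a
            = (act x a - aug p G x • a) + (act y a - aug p G y • a) := by
          rw [map_add, map_add, LinearMap.add_apply, add_smul]; abel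
        show act (x + y) a - aug p G (x + y) • a ∈ augPow p G (n + 1)
        rw [this]
        exact Submodule.add_mem _ hx hy
      zero_mem' := by
        show act 0 a - aug p G 0 • a ∈ augPow p G (n + 1)
        simp
      smul_mem' := by
        intro c x hx
        have : act (c • x) a - aug p G (c • x) • a = c • (act x a - aug p G x • a) := by
          rw [map_smul, map_smul, LinearMap.smul_apply, smul_sub, smul_assoc]
        show act (c • x) a - aug p G (c • x) • a ∈ augPow p G (n + 1)
        rw [this]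
        exact Submodule.smul_mem _ _ hx }
  refine mem_of_forall_of W ?_ f
  intro g
  show act ((MonoidAlgebra.of (ZMod p) G) g) a - aug p G ((MonoidAlgebra.of (ZMod p) G) g) • a ∈ augPow p G (n + 1)
  rw [act_of, aug_of, one_smul]
  have : (MonoidAlgebra.of (ZMod p) G) g * a * (MonoidAlgebra.of (ZMod p) G) g⁻¹ - a = (((MonoidAlgebra.of (ZMod p) G) g - 1) * a - a * ((MonoidAlgebra.of (ZMod p) G) g - 1)) * (MonoidAlgebra.of (ZMod p) G) g⁻¹ := by
    have h := e_mul_inv (p := p) g
    calc (MonoidAlgebra.of (ZMod p) G) g * a * (MonoidAlgebra.of (ZMod p) G) g⁻¹ - a = (MonoidAlgebra.of (ZMod p) G) g * a * (MonoidAlgebra.of (ZMod p) G) g⁻¹ - a * ((MonoidAlgebra.of (ZMod p) G) g * (MonoidAlgebra.of (ZMod p) G) g⁻¹) := by rw [h, mul_one]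
      _ = _ := by noncomm_ring
  rw [this]
  refine mul_right_mem_augPow ?_ _
  refine Submodule.sub_mem _ ?_ ?_
  · rw [add_comm]; exact mul_mem_augPow (of_sub_one_mem g) ha
  · exact mul_mem_augPow ha (of_sub_one_mem g)

lemma act_mem {n : ℕ} {a : (MonoidAlgebra (ZMod p) G)} (ha : a ∈ augPow p G n) (f : (MonoidAlgebra (ZMod p) G)) : act f a ∈ augPow p G n := by
  have h := augPow_succ_le _ (act_sub_aug_mem ha f)
  have h2 : act f a = (act f a - aug p G f • a) + aug p G f • a := by abel
  rw [h2]
  exact Submodule.add_mem _ h (Submodule.smul_mem _ _ ha)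

lemma act_mem_add {m n : ℕ} {f a : (MonoidAlgebra (ZMod p) G)} (hf : f ∈ augPow p G m) (ha : a ∈ augPow p G n) :
    act f a ∈ augPow p G (m + n) := by
  induction m generalizing f with
  | zero => rw [zero_add]; exact act_mem ha f
  | succ m ih =>
    have hf' : f ∈ augIdeal p G * augPow p G m := hf
    induction hf' using Submodule.mul_induction_on' with
    | mem_mul_mem x hx y hy =>
      rw [map_mul]
      show act x (act y a) ∈ _
      have h1 := act_sub_aug_mem (ih hy) x
      rw [(mem_augIdeal x).1 hx, zero_smul, sub_zero] at h1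
      rw [show m + 1 + n = m + n + 1 by ring]
      exact h1
    | add x hx y hy h1 h2 =>
      rw [map_add]
      exact Submodule.add_mem _ (h1 hx) (h2 hy)

/-- the right ideal generated by `s - 1`, `s ∈ S`. -/
noncomputable def genIdeal (S : Finset G) : Submodule (ZMod p) (MonoidAlgebra (ZMod p) G) :=
  Submodule.span (ZMod p) {x | ∃ s ∈ S, ∃ r : (MonoidAlgebra (ZMod p) G), x = ((MonoidAlgebra.of (ZMod p) G) s - 1) * r}

lemma genIdeal_mul_right (S : Finset G) {x : (MonoidAlgebra (ZMod p) G)} (hx : x ∈ genIdeal (p := p) S) (r : (MonoidAlgebra (ZMod p) G)) :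
    x * r ∈ genIdeal (p := p) S := by
  induction hx using Submodule.span_induction with
  | mem x hx =>
    obtain ⟨s, hs, r', rfl⟩ := hx
    exact Submodule.subset_span ⟨s, hs, r' * r, by rw [mul_assoc]⟩
  | zero => simp
  | add x y _ _ hx hy => rw [add_mul]; exact Submodule.add_mem _ hx hy
  | smul c x _ hx => rw [smul_mul_assoc]; exact Submodule.smul_mem _ _ hx

lemma of_sub_one_mem_genIdeal (S : Finset G) (hS : Subgroup.closure (S : Set G) = ⊤) (g : G) :
    (MonoidAlgebra.of (ZMod p) G) g - 1 ∈ genIdeal (p := p) S := by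
  have hg : g ∈ Subgroup.closure (S : Set G) := by rw [hS]; trivial
  induction hg using Subgroup.closure_induction with
  | mem x hx => exact Submodule.subset_span ⟨x, hx, 1, by rw [mul_one]⟩
  | one => rw [map_one, sub_self]; exact Submodule.zero_mem _
  | mul x y _ _ hx hy =>
    have : (MonoidAlgebra.of (ZMod p) G) (x * y) - 1 = ((MonoidAlgebra.of (ZMod p) G) x - 1) * (MonoidAlgebra.of (ZMod p) G) y + ((MonoidAlgebra.of (ZMod p) G) y - 1) := by rw [map_mul]; noncomm_ring
    rw [this]
    exact Submodule.add_mem _ (genIdeal_mul_right S hx _) hy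
  | inv x _ hx =>
    have : (MonoidAlgebra.of (ZMod p) G) x⁻¹ - 1 = - (((MonoidAlgebra.of (ZMod p) G) x - 1) * (MonoidAlgebra.of (ZMod p) G) x⁻¹) := by
      rw [sub_mul, e_mul_inv]; noncomm_ring
    rw [this]
    exact Submodule.neg_mem _ (genIdeal_mul_right S hx _)

lemma sub_aug_mem_genIdeal (S : Finset G) (hS : Subgroup.closure (S : Set G) = ⊤) (f : (MonoidAlgebra (ZMod p) G)) :
    f - aug p G f • 1 ∈ genIdeal (p := p) S := by
  let W : Submodule (ZMod p) (MonoidAlgebra (ZMod p) G) :=
    { carrier := {f | f - aug p G f • 1 ∈ genIdeal (p := p) S}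
      add_mem' := by
        intro x y hx hy
        have : (x + y) - aug p G (x + y) • (1 : (MonoidAlgebra (ZMod p) G))
            = (x - aug p G x • 1) + (y - aug p G y • 1) := by
          rw [map_add, add_smul]; abel
        show (x + y) - aug p G (x + y) • (1 : (MonoidAlgebra (ZMod p) G)) ∈ genIdeal (p := p) S
        rw [this]
        exact Submodule.add_mem _ hx hy
      zero_mem' := by
        show (0 : (MonoidAlgebra (ZMod p) G)) - aug p G 0 • (1 : (MonoidAlgebra (ZMod p) G)) ∈ genIdeal (p := p) S
        simp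
      smul_mem' := by
        intro c x hx
        have : (c • x) - aug p G (c • x) • (1 : (MonoidAlgebra (ZMod p) G)) = c • (x - aug p G x • 1) := by
          rw [map_smul, smul_sub, smul_assoc]
        show (c • x) - aug p G (c • x) • (1 : (MonoidAlgebra (ZMod p) G)) ∈ genIdeal (p := p) S
        rw [this]
        exact Submodule.smul_mem _ _ hx }
  refine mem_of_forall_of W ?_ f
  intro g
  show (MonoidAlgebra.of (ZMod p) G) g - aug p G ((MonoidAlgebra.of (ZMod p) G) g) • (1 : (MonoidAlgebra (ZMod p) G)) ∈ genIdeal (p := p) S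
  rw [aug_of, one_smul]
  exact of_sub_one_mem_genIdeal S hS g

/-- span of the ball of radius `m`. -/
noncomputable def ballSpan (S : Finset G) (m : ℕ) : Submodule (ZMod p) (MonoidAlgebra (ZMod p) G) :=
  Submodule.span (ZMod p) ((fun g => (MonoidAlgebra.of (ZMod p) G) g) '' wordBall S m)

lemma ballSpan_mono (S : Finset G) {m n : ℕ} (h : m ≤ n) :
    ballSpan (p := p) S m ≤ ballSpan (p := p) S n :=
  Submodule.span_mono (Set.image_mono (wordBall_mono S h))

lemma gen_mul_ballSpan (S : Finset G) {s : G} (hs : s ∈ S) {m : ℕ} {v : (MonoidAlgebra (ZMod p) G)}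
    (hv : v ∈ ballSpan (p := p) S m) : ((MonoidAlgebra.of (ZMod p) G) s - 1) * v ∈ ballSpan (p := p) S (m + 1) := by
  have h1 : (MonoidAlgebra.of (ZMod p) G) s * v ∈ ballSpan (p := p) S (m + 1) := by
    induction hv using Submodule.span_induction with
    | mem x hx =>
      obtain ⟨g, hg, rfl⟩ := hx
      refine Submodule.subset_span ⟨s * g, ?_, by simp⟩
      rw [add_comm]
      exact mul_mem_wordBall S (gen_mem_wordBall S hs) hg
    | zero => simp
    | add x y _ _ hx hy => rw [mul_add]; exact Submodule.add_mem _ hx hy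
    | smul c x _ hx => rw [mul_smul_comm]; exact Submodule.smul_mem _ _ hx
  rw [sub_mul, one_mul]
  exact Submodule.sub_mem _ h1 (ballSpan_mono S (Nat.le_succ m) hv)

lemma top_le_ballSpan_sup (S : Finset G) (hS : Subgroup.closure (S : Set G) = ⊤) (m : ℕ)
    (f : (MonoidAlgebra (ZMod p) G)) : f ∈ ballSpan (p := p) S m ⊔ augPow p G (m + 1) := by
  have hone : ∀ m, (1 : (MonoidAlgebra (ZMod p) G)) ∈ ballSpan (p := p) S m := fun m =>
    Submodule.subset_span ⟨1, one_mem_wordBall S m, map_one _⟩
  induction m generalizing f with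
  | zero =>
    have h : f = aug p G f • (1 : (MonoidAlgebra (ZMod p) G)) + (f - aug p G f • (1 : (MonoidAlgebra (ZMod p) G))) := by abel
    rw [h]
    refine Submodule.add_mem_sup (Submodule.smul_mem _ _ (hone 0)) ?_
    apply augIdeal_le
    rw [mem_augIdeal, map_sub, map_smul, map_one, smul_eq_mul, mul_one, sub_self]
  | succ m ih =>
    have h : f = aug p G f • (1 : (MonoidAlgebra (ZMod p) G)) + (f - aug p G f • (1 : (MonoidAlgebra (ZMod p) G))) := by abel
    rw [h]
    refine Submodule.add_mem _ ?_ ?_
    · exact Submodule.mem_sup_left (Submodule.smul_mem _ _ (hone _))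
    · have h2 := sub_aug_mem_genIdeal (p := p) S hS f
      generalize f - aug p G f • (1 : (MonoidAlgebra (ZMod p) G)) = y at h2
      induction h2 using Submodule.span_induction with
      | mem x hx =>
        obtain ⟨s, hs, r, rfl⟩ := hx
        obtain ⟨v, hv, d, hd, hvd⟩ := Submodule.mem_sup.1 (ih r)
        rw [← hvd, mul_add]
        refine Submodule.add_mem_sup (gen_mul_ballSpan S hs hv) ?_
        rw [show m + 1 + 1 = 1 + (m + 1) by ring]
        exact mul_mem_augPow (of_sub_one_mem s) hd
      | zero => exact Submodule.zero_mem _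
      | add x y _ _ hx hy => exact Submodule.add_mem _ hx hy
      | smul c x _ hx => exact Submodule.smul_mem _ _ hx

end Pool.H67.Esq
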