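import Pool.Agent.H67.Esq.Lamp2

set_option autoImplicit false

/-!
# Counting products of commutators of lamps
-/

namespace Pool.H67.Esq

open scoped commutatorElement

variable {p : ℕ} [Fact p.Prime] {G : Type*} [Group G]


lemma prod_approx {n : ℕ} (l : List G) (h : ∀ v ∈ l, (MonoidAlgebra.of (ZMod p) G) v - 1 ∈ augPow p G n) :
    ((MonoidAlgebra.of (ZMod p) G) l.prod - 1 - (l.map (fun v => (MonoidAlgebra.of (ZMod p) G) v - 1)).sum ∈ augPow p G (n + n)) ∧
      (MonoidAlgebra.of (ZMod p) G) l.prod - 1 ∈ augPow p G n := by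
  induction l with
  | nil => simp [map_one]
  | cons a l ih =>
    obtain ⟨h1, h2⟩ := ih (fun v hv => h v (by simp [hv]))
    have ha : (MonoidAlgebra.of (ZMod p) G) a - 1 ∈ augPow p G n := h a (by simp)
    constructor
    · rw [List.prod_cons, List.map_cons, List.sum_cons, map_mul]
      have : (MonoidAlgebra.of (ZMod p) G) a * (MonoidAlgebra.of (ZMod p) G) l.prod - 1 - ((MonoidAlgebra.of (ZMod p) G) a - 1 + (l.map (fun v => (MonoidAlgebra.of (ZMod p) G) v - 1)).sum)
          = ((MonoidAlgebra.of (ZMod p) G) a - 1) * ((MonoidAlgebra.of (ZMod p) G) l.prod - 1) + ((MonoidAlgebra.of (ZMod p) G) l.prod - 1 - (l.map (fun v => (MonoidAlgebra.of (ZMod p) G) v - 1)).sum) := by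
        noncomm_ring
      rw [this]
      exact Submodule.add_mem _ (mul_mem_augPow ha h2) h1
    · rw [List.prod_cons, map_mul]
      have : (MonoidAlgebra.of (ZMod p) G) a * (MonoidAlgebra.of (ZMod p) G) l.prod - 1 = (MonoidAlgebra.of (ZMod p) G) a * ((MonoidAlgebra.of (ZMod p) G) l.prod - 1) + ((MonoidAlgebra.of (ZMod p) G) a - 1) := by noncomm_ring
      rw [this]
      exact Submodule.add_mem _ (mul_left_mem_augPow _ h2) ha

/-- the product of the lamps selected by `ε` -/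
def lampProd {r : ℕ} (v : Fin r → G) (ε : Fin r → Bool) : G :=
  (List.ofFn (fun j => if ε j then v j else 1)).prod

lemma lampProd_approx {n r : ℕ} (v : Fin r → G) (h : ∀ j, (MonoidAlgebra.of (ZMod p) G) (v j) - 1 ∈ augPow p G n)
    (ε : Fin r → Bool) :
    ((MonoidAlgebra.of (ZMod p) G) (lampProd v ε) - 1 - ∑ j, (if ε j then ((MonoidAlgebra.of (ZMod p) G) (v j) - 1) else 0) ∈ augPow p G (n + n)) ∧
      (MonoidAlgebra.of (ZMod p) G) (lampProd v ε) - 1 ∈ augPow p G n := by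
  have key := prod_approx (p := p) (n := n) (List.ofFn (fun j => if ε j then v j else 1)) (by
    intro y hy
    rw [List.mem_ofFn] at hy
    obtain ⟨j, rfl⟩ := hy
    by_cases hj : ε j
    · rw [if_pos hj]; exact h j
    · rw [if_neg hj, map_one, sub_self]; exact Submodule.zero_mem _)
  refine ⟨?_, key.2⟩
  have hsum : ((List.ofFn (fun j => if ε j then v j else 1)).map (fun y => (MonoidAlgebra.of (ZMod p) G) y - 1)).sum
      = ∑ j, (if ε j then ((MonoidAlgebra.of (ZMod p) G) (v j) - 1) else 0) := by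
    rw [List.map_ofFn, List.sum_ofFn]
    refine Finset.sum_congr rfl fun j _ => ?_
    by_cases hj : ε j
    · simp only [Function.comp]
      rw [if_pos hj, if_pos hj]
    · simp only [Function.comp]
      rw [if_neg hj, if_neg hj, map_one, sub_self]
  rw [hsum] at key
  exact key.1

lemma lampProd_mem_wordBall (S : Finset G) {r L : ℕ} (v : Fin r → G)
    (h : ∀ j, v j ∈ wordBall S L) (ε : Fin r → Bool) :
    lampProd v ε ∈ wordBall S (r * L) := by
  have key : ∀ l : List G, (∀ y ∈ l, y ∈ wordBall S L) → l.prod ∈ wordBall S (l.length * L) := by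
    intro l
    induction l with
    | nil => intro _; simpa using one_mem_wordBall S 0
    | cons a l ih =>
      intro hl
      rw [List.prod_cons, List.length_cons, Nat.succ_mul, add_comm]
      exact mul_mem_wordBall S (hl a (by simp)) (ih fun y hy => hl y (by simp [hy]))
  have h2 := key (List.ofFn (fun j => if ε j then v j else 1)) (by
    intro y hy
    rw [List.mem_ofFn] at hy
    obtain ⟨j, rfl⟩ := hy
    by_cases hj : ε j
    · rw [if_pos hj]; exact h j
    · rw [if_neg hj]; exact one_mem_wordBall S L)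
  rwa [List.length_ofFn] at h2

lemma commutator_mem_wordBall (S : Finset G) {m n : ℕ} {a b : G} (ha : a ∈ wordBall S m)
    (hb : b ∈ wordBall S n) : ⁅a, b⁆ ∈ wordBall S (2 * (m + n)) := by
  rw [commutatorElement_def]
  have h1 := mul_mem_wordBall S (mul_mem_wordBall S (mul_mem_wordBall S ha hb)
    (inv_mem_wordBall S ha)) (inv_mem_wordBall S hb)
  exact wordBall_mono S (by omega) h1

/-- one level -/
lemma level_step (S : Finset G) (hS : Subgroup.closure (S : Set G) = ⊤) {x u : G} {w i ℓ : ℕ}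
    (hw : 1 ≤ w) (hx : (MonoidAlgebra.of (ZMod p) G) x - 1 ∈ augPow p G w) (hu : (MonoidAlgebra.of (ZMod p) G) u - 1 ∈ augPow p G i)
    (hxl : x ∈ wordBall S ℓ)
    (hnil : ∀ n, (adE ((MonoidAlgebra.of (ZMod p) G) x - 1) ^ n) ((MonoidAlgebra.of (ZMod p) G) u - 1) ∉ augPow p G (i + w * n + 1)) (k l : ℕ)
    (hkl : k ≤ l) (A0 : Finset G) (L : ℕ) (hA : ∀ a ∈ A0, a ∈ wordBall S L)
    (hsep : ∀ a ∈ A0, ∀ b ∈ A0, (MonoidAlgebra.of (ZMod p) G) a - (MonoidAlgebra.of (ZMod p) G) b ∈ augPow p G (w * (p ^ k + p ^ l)) → a = b) :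
    ∃ A1 : Finset G, A1.card = A0.card * 2 ^ (p ^ k - i) ∧
      (∀ a ∈ A1, a ∈ wordBall S
        (L + 2 * (p ^ l * ℓ + (p ^ k - i) * (2 * (w * p ^ k) + p ^ k * ℓ)))) ∧
      (∀ a ∈ A1, ∀ b ∈ A1, (MonoidAlgebra.of (ZMod p) G) a - (MonoidAlgebra.of (ZMod p) G) b ∈ augPow p G (w * (p ^ k + p ^ (l + 1))) → a = b) := by
  classical
  set X := (MonoidAlgebra.of (ZMod p) G) x - 1 with hX
  set q := p ^ k with hq
  set Q := p ^ l with hQ
  set r := q - i with hr
  obtain ⟨g, hg, hlin⟩ : ∃ g : Fin r → G, (∀ j, g j ∈ wordBall S (w * q)) ∧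
      LinearIndependent (ZMod p) (fun j => (augPow p G (w * (2 * q + Q))).mkQ
        (X ^ Q * act ((MonoidAlgebra.of (ZMod p) G) (g j)) (X ^ q) - act ((MonoidAlgebra.of (ZMod p) G) (g j)) (X ^ q) * X ^ Q)) :=
    exists_lamps (p := p) S hS hw hx hu hnil k l
  have hp := (Fact.out : p.Prime)
  have hq1 : 1 ≤ q := Nat.one_le_pow _ _ hp.pos
  have hqQ : q ≤ Q := Nat.pow_le_pow_right hp.pos hkl
  have hXQ : X ^ Q ∈ augPow p G (w * Q) := pow_mem_augPow hx _
  have hXq : X ^ q ∈ augPow p G (w * q) := pow_mem_augPow hx _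
  set N := w * (2 * q + Q) with hN
  let v : Fin r → G := fun j => g j * x ^ q * (g j)⁻¹
  have hv : ∀ j, (MonoidAlgebra.of (ZMod p) G) (v j) - 1 = act ((MonoidAlgebra.of (ZMod p) G) (g j)) (X ^ q) := by
    intro j
    rw [act_of, hX, hq, ← e_pow_char]
    have h := e_mul_inv (p := p) (g j)
    show (MonoidAlgebra.of (ZMod p) G) (g j * x ^ p ^ k * (g j)⁻¹) - 1 = _
    rw [map_mul, map_mul, mul_sub, sub_mul, mul_one, h]
  have hv2 : ∀ j, (MonoidAlgebra.of (ZMod p) G) (v j) - 1 ∈ augPow p G (w * q) := fun j => by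
    rw [hv]; exact act_mem hXq _
  have hvl : ∀ j, v j ∈ wordBall S (2 * (w * q) + q * ℓ) := fun j => by
    have h1 := mul_mem_wordBall S (mul_mem_wordBall S (hg j) (pow_mem_wordBall S hxl q))
      (inv_mem_wordBall S (hg j))
    have h2 : w * q + q * ℓ + w * q = 2 * (w * q) + q * ℓ := by ring
    rw [h2] at h1
    exact h1
  -- the commutators
  let C : (Fin r → Bool) → G := fun ε => ⁅x ^ Q, lampProd v ε⁆
  let c : Fin r → (MonoidAlgebra (ZMod p) G) := fun j => X ^ Q * act ((MonoidAlgebra.of (ZMod p) G) (g j)) (X ^ q) - act ((MonoidAlgebra.of (ZMod p) G) (g j)) (X ^ q) * X ^ Q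
  have hxQ : (MonoidAlgebra.of (ZMod p) G) (x ^ Q) - 1 = X ^ Q := by rw [hQ, e_pow_char]
  have hC : ∀ ε, (MonoidAlgebra.of (ZMod p) G) (C ε) - 1 - ∑ j, (if ε j then c j else 0) ∈ augPow p G N := by
    intro ε
    obtain ⟨h1, h2⟩ := lampProd_approx (p := p) v hv2 ε
    have h3 := comm_approx (p := p) (α := w * Q) (β := w * q) (m := w * q) (a := x ^ Q)
      (b := lampProd v ε) (by rw [hxQ]; exact hXQ) h2 (Nat.mul_le_mul_left w hqQ) le_rfl
    rw [hxQ] at h3
    have h4 := comm_mem hXQ h1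
    have hsum : ∑ j, (if ε j then c j else 0)
        = X ^ Q * (∑ j, (if ε j then ((MonoidAlgebra.of (ZMod p) G) (v j) - 1) else 0))
          - (∑ j, (if ε j then ((MonoidAlgebra.of (ZMod p) G) (v j) - 1) else 0)) * X ^ Q := by
      rw [Finset.mul_sum, Finset.sum_mul, ← Finset.sum_sub_distrib]
      refine Finset.sum_congr rfl fun j _ => ?_
      by_cases hj : ε j
      · rw [if_pos hj, if_pos hj, hv]
      · rw [if_neg hj, if_neg hj, mul_zero, zero_mul, sub_zero]
    have h5 : (MonoidAlgebra.of (ZMod p) G) (C ε) - 1 - ∑ j, (if ε j then c j else 0)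
        = ((MonoidAlgebra.of (ZMod p) G) ⁅x ^ Q, lampProd v ε⁆ - 1 - (X ^ Q * ((MonoidAlgebra.of (ZMod p) G) (lampProd v ε) - 1)
            - ((MonoidAlgebra.of (ZMod p) G) (lampProd v ε) - 1) * X ^ Q))
          + (X ^ Q * ((MonoidAlgebra.of (ZMod p) G) (lampProd v ε) - 1 - ∑ j, (if ε j then ((MonoidAlgebra.of (ZMod p) G) (v j) - 1) else 0))
            - ((MonoidAlgebra.of (ZMod p) G) (lampProd v ε) - 1 - ∑ j, (if ε j then ((MonoidAlgebra.of (ZMod p) G) (v j) - 1) else 0)) * X ^ Q) := by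
      rw [hsum]; noncomm_ring
    rw [h5]
    refine Submodule.add_mem _ (augPow_anti ?_ h3) (augPow_anti ?_ h4)
    · rw [hN]; nlinarith
    · rw [hN]; nlinarith
  have hC1 : ∀ ε, (MonoidAlgebra.of (ZMod p) G) (C ε) - 1 ∈ augPow p G (w * (q + Q)) := by
    intro ε
    obtain ⟨-, h2⟩ := lampProd_approx (p := p) v hv2 ε
    show (MonoidAlgebra.of (ZMod p) G) ⁅x ^ Q, lampProd v ε⁆ - 1 ∈ _
    rw [e_commutator, hxQ]
    refine mul_right_mem_augPow (augPow_anti ?_ (comm_mem hXQ h2)) _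
    nlinarith
  have hCinj : ∀ ε ε' : Fin r → Bool, (MonoidAlgebra.of (ZMod p) G) (C ε) - (MonoidAlgebra.of (ZMod p) G) (C ε') ∈ augPow p G N → ε = ε' := by
    intro ε ε' h
    have h1 : ∑ j, ((if ε j then (1 : (ZMod p)) else 0) - (if ε' j then (1 : (ZMod p)) else 0)) • c j
        ∈ augPow p G N := by
      have h2 : ∑ j, ((if ε j then (1 : (ZMod p)) else 0) - (if ε' j then (1 : (ZMod p)) else 0)) • c j
          = ((MonoidAlgebra.of (ZMod p) G) (C ε) - (MonoidAlgebra.of (ZMod p) G) (C ε')) - ((MonoidAlgebra.of (ZMod p) G) (C ε) - 1 - ∑ j, (if ε j then c j else 0))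
            + ((MonoidAlgebra.of (ZMod p) G) (C ε') - 1 - ∑ j, (if ε' j then c j else 0)) := by
        have h3 : ∑ j, ((if ε j then (1 : (ZMod p)) else 0) - (if ε' j then (1 : (ZMod p)) else 0)) • c j
            = ∑ j, (if ε j then c j else 0) - ∑ j, (if ε' j then c j else 0) := by
          rw [← Finset.sum_sub_distrib]
          refine Finset.sum_congr rfl fun j _ => ?_
          rw [sub_smul]
          by_cases h4 : ε j <;> by_cases h5 : ε' j <;> simp [h4, h5]
        rw [h3]; abel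
      rw [h2]
      exact Submodule.add_mem _ (Submodule.sub_mem _ h (hC ε)) (hC ε')
    have h6 := (Fintype.linearIndependent_iff.1 hlin)
      (fun j => (if ε j then (1 : (ZMod p)) else 0) - (if ε' j then (1 : (ZMod p)) else 0)) (by
        have h7 : (augPow p G N).mkQ
            (∑ j, ((if ε j then (1 : (ZMod p)) else 0) - (if ε' j then (1 : (ZMod p)) else 0)) • c j) = 0 := by
          rw [Submodule.mkQ_apply, Submodule.Quotient.mk_eq_zero]; exact h1
        rw [map_sum] at h7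
        simp only [map_smul] at h7
        exact h7)
    funext j
    have h8 := h6 j
    by_cases h4 : ε j <;> by_cases h5 : ε' j <;> simp [h4, h5] at h8 ⊢
  -- the key separation statement
  have hkey : ∀ a ∈ A0, ∀ b ∈ A0, ∀ ε ε' : Fin r → Bool,
      (MonoidAlgebra.of (ZMod p) G) (a * C ε) - (MonoidAlgebra.of (ZMod p) G) (b * C ε') ∈ augPow p G (w * (q + p ^ (l + 1))) → a = b ∧ ε = ε' := by
    intro a ha b hb ε ε' h
    have hle1 : w * (q + Q) ≤ w * (q + p ^ (l + 1)) := by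
      apply Nat.mul_le_mul_left
      have : Q ≤ p ^ (l + 1) := Nat.pow_le_pow_right hp.pos (Nat.le_succ l)
      omega
    have hle2 : N ≤ w * (q + p ^ (l + 1)) := by
      rw [hN]
      apply Nat.mul_le_mul_left
      have : 2 * Q ≤ p ^ (l + 1) := by
        rw [pow_succ, mul_comm]
        exact Nat.mul_le_mul_left _ hp.two_le
      omega
    have hab : a = b := by
      apply hsep a ha b hb
      have h1 : (MonoidAlgebra.of (ZMod p) G) a - (MonoidAlgebra.of (ZMod p) G) b = ((MonoidAlgebra.of (ZMod p) G) (a * C ε) - (MonoidAlgebra.of (ZMod p) G) (b * C ε')) - (MonoidAlgebra.of (ZMod p) G) a * ((MonoidAlgebra.of (ZMod p) G) (C ε) - 1)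
          + (MonoidAlgebra.of (ZMod p) G) b * ((MonoidAlgebra.of (ZMod p) G) (C ε') - 1) := by
        rw [map_mul, map_mul]; noncomm_ring
      rw [h1]
      exact Submodule.add_mem _ (Submodule.sub_mem _ (augPow_anti hle1 h)
        (mul_left_mem_augPow _ (hC1 ε))) (mul_left_mem_augPow _ (hC1 ε'))
    subst hab
    refine ⟨rfl, hCinj ε ε' ?_⟩
    have h1 : (MonoidAlgebra.of (ZMod p) G) (C ε) - (MonoidAlgebra.of (ZMod p) G) (C ε') = (MonoidAlgebra.of (ZMod p) G) a⁻¹ * ((MonoidAlgebra.of (ZMod p) G) (a * C ε) - (MonoidAlgebra.of (ZMod p) G) (a * C ε')) := by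
      rw [mul_sub, ← map_mul, ← map_mul, inv_mul_cancel_left, inv_mul_cancel_left]
    rw [h1]
    exact mul_left_mem_augPow _ (augPow_anti hle2 h)
  let φ : G × (Fin r → Bool) → G := fun z => z.1 * C z.2
  refine ⟨(A0 ×ˢ (Finset.univ : Finset (Fin r → Bool))).image φ, ?_, ?_, ?_⟩
  · rw [Finset.card_image_of_injOn, Finset.card_product]
    · simp
    · rintro ⟨a, ε⟩ ha ⟨b, ε'⟩ hb hab
      have ha' : a ∈ A0 := (Finset.mem_product.1 (Finset.mem_coe.1 ha)).1
      have hb' : b ∈ A0 := (Finset.mem_product.1 (Finset.mem_coe.1 hb)).1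
      have h := hkey a ha' b hb' ε ε' (by
        have : a * C ε = b * C ε' := hab
        rw [this, sub_self]; exact Submodule.zero_mem _)
      rw [h.1, h.2]
  · intro y hy
    obtain ⟨⟨a, ε⟩, ha, rfl⟩ := Finset.mem_image.1 hy
    have ha' : a ∈ A0 := (Finset.mem_product.1 ha).1
    have h1 := commutator_mem_wordBall S (pow_mem_wordBall S hxl Q)
      (lampProd_mem_wordBall S v hvl ε)
    exact mul_mem_wordBall S (hA a ha') h1
  · intro y hy y' hy' h
    obtain ⟨⟨a, ε⟩, ha, rfl⟩ := Finset.mem_image.1 hy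
    obtain ⟨⟨b, ε'⟩, hb, rfl⟩ := Finset.mem_image.1 hy'
    have h1 := hkey a (Finset.mem_product.1 ha).1 b (Finset.mem_product.1 hb).1 ε ε' h
    rw [h1.1, h1.2]

/-- all levels: `2^{(k+1)(p^k-i)}` elements in the ball of radius `(k+1) p^{2k} (4ℓ+4w)`. -/
lemma growth_levels (S : Finset G) (hS : Subgroup.closure (S : Set G) = ⊤) {x u : G} {w i ℓ : ℕ}
    (hw : 1 ≤ w) (hx : (MonoidAlgebra.of (ZMod p) G) x - 1 ∈ augPow p G w) (hu : (MonoidAlgebra.of (ZMod p) G) u - 1 ∈ augPow p G i)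
    (hxl : x ∈ wordBall S ℓ)
    (hnil : ∀ n, (adE ((MonoidAlgebra.of (ZMod p) G) x - 1) ^ n) ((MonoidAlgebra.of (ZMod p) G) u - 1) ∉ augPow p G (i + w * n + 1)) (k : ℕ) :
    2 ^ ((k + 1) * (p ^ k - i)) ≤ growth S ((k + 1) * (p ^ (2 * k) * (4 * ℓ + 4 * w))) := by
  classical
  have hp := (Fact.out : p.Prime)
  have hind : ∀ t : ℕ, t ≤ k + 1 → ∃ A1 : Finset G, A1.card = 2 ^ (t * (p ^ k - i)) ∧
      (∀ a ∈ A1, a ∈ wordBall S (t * (p ^ (2 * k) * (4 * ℓ + 4 * w)))) ∧
      (∀ a ∈ A1, ∀ b ∈ A1, (MonoidAlgebra.of (ZMod p) G) a - (MonoidAlgebra.of (ZMod p) G) b ∈ augPow p G (w * (p ^ k + p ^ (k + t))) → a = b) := by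
    intro t
    induction t with
    | zero =>
      intro _
      refine ⟨{1}, by simp, ?_, ?_⟩
      · intro a ha
        rw [Finset.mem_singleton] at ha
        subst ha
        exact one_mem_wordBall S _
      · intro a ha b hb _
        rw [Finset.mem_singleton] at ha hb
        rw [ha, hb]
    | succ t ih =>
      intro ht
      obtain ⟨A0, h1, h2, h3⟩ := ih (by omega)
      obtain ⟨A1, h4, h5, h6⟩ := level_step (p := p) S hS hw hx hu hxl hnil k (k + t) (by omega)
        A0 _ h2 h3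
      refine ⟨A1, ?_, ?_, h6⟩
      · rw [h4, h1, ← pow_add]; ring_nf
      · intro a ha
        refine wordBall_mono S ?_ (h5 a ha)
        have hQ : p ^ (k + t) ≤ p ^ (2 * k) := Nat.pow_le_pow_right hp.pos (by omega)
        have hqq : p ^ k * p ^ k = p ^ (2 * k) := by rw [← pow_add]; ring_nf
        have hr : p ^ k - i ≤ p ^ k := Nat.sub_le _ _
        have h7 : (p ^ k - i) * (2 * (w * p ^ k) + p ^ k * ℓ)
            ≤ p ^ k * (2 * (w * p ^ k) + p ^ k * ℓ) := Nat.mul_le_mul_right _ hr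
        have h8 : p ^ k * (2 * (w * p ^ k) + p ^ k * ℓ) = p ^ (2 * k) * (2 * w + ℓ) := by
          rw [← hqq]; ring
        have h9 : p ^ (k + t) * ℓ ≤ p ^ (2 * k) * ℓ := Nat.mul_le_mul_right _ hQ
        rw [h8] at h7
        have h10 : (t + 1) * (p ^ (2 * k) * (4 * ℓ + 4 * w))
            = t * (p ^ (2 * k) * (4 * ℓ + 4 * w)) + 2 * (p ^ (2 * k) * ℓ
              + p ^ (2 * k) * (2 * w + ℓ)) := by ring
        rw [h10]
        omega
  obtain ⟨A1, h1, h2, -⟩ := hind (k + 1) le_rfl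
  rw [← h1]
  exact card_le_growth S _ A1 h2

end Pool.H67.Esq
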