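import Mathlib

set_option autoImplicit false

/-!
# Growth, word balls, and the powers of the augmentation ideal of `F_p[G]`
-/

namespace Pool.H67.Esq

open scoped Pointwise

section Ball

variable {G : Type*} [Group G]

/-- The ball of radius `n` for the word length with respect to `S ∪ S⁻¹`. -/
def wordBall (S : Finset G) (n : ℕ) : Set G :=
  {g | ∃ l : List G, l.length ≤ n ∧ (∀ a ∈ l, a ∈ S ∨ a⁻¹ ∈ S) ∧ l.prod = g}

/-- The growth function `γ(n) = #{g : |g|_S ≤ n}`. -/
noncomputable def growth (S : Finset G) (n : ℕ) : ℕ := (wordBall S n).ncard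

lemma wordBall_mono (S : Finset G) {m n : ℕ} (h : m ≤ n) : wordBall S m ⊆ wordBall S n := by
  rintro g ⟨l, h1, h2, h3⟩
  exact ⟨l, h1.trans h, h2, h3⟩

lemma one_mem_wordBall (S : Finset G) (n : ℕ) : (1 : G) ∈ wordBall S n :=
  ⟨[], by simp, by simp, by simp⟩

lemma gen_mem_wordBall (S : Finset G) {s : G} (hs : s ∈ S) : s ∈ wordBall S 1 :=
  ⟨[s], by simp, by simp [hs], by simp⟩

lemma mul_mem_wordBall (S : Finset G) {m n : ℕ} {a b : G} (ha : a ∈ wordBall S m)
    (hb : b ∈ wordBall S n) : a * b ∈ wordBall S (m + n) := by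
  obtain ⟨l, h1, h2, h3⟩ := ha
  obtain ⟨l', h1', h2', h3'⟩ := hb
  refine ⟨l ++ l', by simp; omega, ?_, by simp [h3, h3']⟩
  intro x hx
  rcases List.mem_append.1 hx with h | h
  · exact h2 x h
  · exact h2' x h

lemma inv_mem_wordBall (S : Finset G) {m : ℕ} {a : G} (ha : a ∈ wordBall S m) :
    a⁻¹ ∈ wordBall S m := by
  obtain ⟨l, h1, h2, h3⟩ := ha
  refine ⟨(l.map (fun x => x⁻¹)).reverse, by simpa using h1, ?_, ?_⟩
  · intro x hx
    simp only [List.mem_reverse, List.mem_map] at hx
    obtain ⟨y, hy, rfl⟩ := hx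
    rcases h2 y hy with h | h
    · right; simpa using h
    · left; exact h
  · rw [← h3, List.prod_inv_reverse]

lemma pow_mem_wordBall (S : Finset G) {m : ℕ} {a : G} (ha : a ∈ wordBall S m) (k : ℕ) :
    a ^ k ∈ wordBall S (k * m) := by
  induction k with
  | zero => simpa using one_mem_wordBall S 0
  | succ k ih =>
    rw [pow_succ]
    have := mul_mem_wordBall S ih ha
    simpa [Nat.succ_mul] using this

lemma exists_mem_wordBall (S : Finset G) (hS : Subgroup.closure (S : Set G) = ⊤) (g : G) :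
    ∃ n, g ∈ wordBall S n := by
  have hg : g ∈ Subgroup.closure (S : Set G) := by rw [hS]; trivial
  induction hg using Subgroup.closure_induction with
  | mem x hx => exact ⟨1, gen_mem_wordBall S hx⟩
  | one => exact ⟨0, one_mem_wordBall S 0⟩
  | mul x y _ _ hx hy =>
    obtain ⟨m, hm⟩ := hx
    obtain ⟨n, hn⟩ := hy
    exact ⟨m + n, mul_mem_wordBall S hm hn⟩
  | inv x _ hx =>
    obtain ⟨m, hm⟩ := hx
    exact ⟨m, inv_mem_wordBall S hm⟩

lemma wordBall_finite (S : Finset G) (n : ℕ) : (wordBall S n).Finite := by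
  classical
  induction n with
  | zero =>
    refine (Set.finite_singleton (1 : G)).subset ?_
    rintro g ⟨l, h1, -, h3⟩
    have : l = [] := List.length_eq_zero_iff.1 (Nat.le_zero.1 h1)
    subst this
    simpa using h3.symm
  | succ n ih =>
    have hT : ({1} ∪ (S : Set G) ∪ (S : Set G)⁻¹ : Set G).Finite :=
      ((Set.finite_singleton _).union S.finite_toSet).union S.finite_toSet.inv
    refine (hT.mul ih).subset ?_
    rintro g ⟨l, h1, h2, h3⟩
    cases l with
    | nil =>
      refine ⟨1, by simp, 1, one_mem_wordBall S n, ?_⟩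
      simpa using h3
    | cons a l =>
      refine ⟨a, ?_, l.prod, ⟨l, by simpa using h1, fun x hx => h2 x (by simp [hx]), rfl⟩, ?_⟩
      · rcases h2 a (by simp) with h | h
        · left; right; exact h
        · right; simpa using h
      · simpa using h3

lemma growth_mono (S : Finset G) : Monotone (growth S) := fun _ _ h =>
  Set.ncard_le_ncard (wordBall_mono S h) (wordBall_finite S _)

lemma one_le_growth (S : Finset G) (n : ℕ) : 1 ≤ growth S n := by
  have h : ({1} : Set G) ⊆ wordBall S n := by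
    simpa using one_mem_wordBall S n
  have := Set.ncard_le_ncard h (wordBall_finite S n)
  rw [Set.ncard_singleton] at this
  exact this

lemma card_le_growth (S : Finset G) (n : ℕ) (A : Finset G) (hA : ∀ a ∈ A, a ∈ wordBall S n) :
    A.card ≤ growth S n := by
  rw [← Set.ncard_coe_finset]
  exact Set.ncard_le_ncard (fun a ha => hA a ha) (wordBall_finite S n)

end Ball

section Filt

variable (p : ℕ) [Fact p.Prime] (G : Type*) [Group G]

/-- The augmentation map `F_p[G] → F_p`. -/
noncomputable def aug : MonoidAlgebra (ZMod p) G →ₐ[ZMod p] ZMod p :=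
  MonoidAlgebra.lift (ZMod p) (ZMod p) G 1

/-- The augmentation ideal of `F_p[G]`, as a subspace. -/
noncomputable def augIdeal : Submodule (ZMod p) (MonoidAlgebra (ZMod p) G) :=
  LinearMap.ker (aug p G).toLinearMap

/-- The powers `Δ^n` of the augmentation ideal, with `Δ^0 = F_p[G]`. -/
noncomputable def augPow : ℕ → Submodule (ZMod p) (MonoidAlgebra (ZMod p) G)
  | 0 => ⊤
  | n + 1 => augIdeal p G * augPow n

variable {p G}

lemma mem_augIdeal (x : MonoidAlgebra (ZMod p) G) : x ∈ augIdeal p G ↔ aug p G x = 0 := by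
  simp [augIdeal]

lemma aug_of (g : G) : aug p G (MonoidAlgebra.of (ZMod p) G g) = 1 := by
  simp [aug]

lemma of_sub_one_mem_augIdeal (g : G) :
    MonoidAlgebra.of (ZMod p) G g - 1 ∈ augIdeal p G := by
  rw [mem_augIdeal, map_sub, aug_of, map_one, sub_self]

lemma augPow_succ_le (n : ℕ) : augPow p G (n + 1) ≤ augPow p G n := by
  induction n with
  | zero => exact le_top
  | succ n ih => exact mul_le_mul' le_rfl ih

lemma augPow_anti {m n : ℕ} (h : m ≤ n) : augPow p G n ≤ augPow p G m := by
  induction h with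
  | refl => exact le_rfl
  | step _ ih => exact (augPow_succ_le _).trans ih

lemma top_mul_augIdeal_le :
    (⊤ : Submodule (ZMod p) (MonoidAlgebra (ZMod p) G)) * augIdeal p G ≤ augIdeal p G := by
  rw [Submodule.mul_le]
  intro a _ b hb
  rw [mem_augIdeal] at hb ⊢
  rw [map_mul, hb, mul_zero]

lemma top_mul_augPow_le (n : ℕ) : ⊤ * augPow p G n ≤ augPow p G n := by
  cases n with
  | zero => exact le_top
  | succ n =>
    show ⊤ * (augIdeal p G * augPow p G n) ≤ augIdeal p G * augPow p G n
    rw [← mul_assoc]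
    exact mul_le_mul' top_mul_augIdeal_le le_rfl

lemma augPow_mul_le (m n : ℕ) : augPow p G m * augPow p G n ≤ augPow p G (m + n) := by
  induction m with
  | zero => rw [zero_add]; exact top_mul_augPow_le n
  | succ m ih =>
    rw [show m + 1 + n = (m + n) + 1 by ring]
    show (augIdeal p G * augPow p G m) * augPow p G n ≤ augIdeal p G * augPow p G (m + n)
    rw [mul_assoc]
    exact mul_le_mul' le_rfl ih

lemma mul_mem_augPow {m n : ℕ} {a b : MonoidAlgebra (ZMod p) G} (ha : a ∈ augPow p G m)
    (hb : b ∈ augPow p G n) : a * b ∈ augPow p G (m + n) :=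
  augPow_mul_le m n (Submodule.mul_mem_mul ha hb)

lemma mul_left_mem_augPow {n : ℕ} (a : MonoidAlgebra (ZMod p) G) {b : MonoidAlgebra (ZMod p) G}
    (hb : b ∈ augPow p G n) : a * b ∈ augPow p G n := by
  have := mul_mem_augPow (m := 0) (a := a) (b := b) trivial hb
  simpa using this

lemma mul_right_mem_augPow {n : ℕ} {a : MonoidAlgebra (ZMod p) G} (ha : a ∈ augPow p G n)
    (b : MonoidAlgebra (ZMod p) G) : a * b ∈ augPow p G n := by
  have := mul_mem_augPow (n := 0) (a := a) (b := b) ha trivial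
  simpa using this

lemma augIdeal_le : augIdeal p G ≤ augPow p G 1 := by
  intro x hx
  have : x * 1 ∈ augIdeal p G * (⊤ : Submodule (ZMod p) (MonoidAlgebra (ZMod p) G)) :=
    Submodule.mul_mem_mul hx trivial
  rw [mul_one] at this
  exact this

lemma of_sub_one_mem (g : G) : MonoidAlgebra.of (ZMod p) G g - 1 ∈ augPow p G 1 :=
  augIdeal_le (of_sub_one_mem_augIdeal g)

lemma pow_mem_augPow {m : ℕ} {a : MonoidAlgebra (ZMod p) G} (ha : a ∈ augPow p G m) (k : ℕ) :
    a ^ k ∈ augPow p G (m * k) := by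
  induction k with
  | zero => simp [augPow]
  | succ k ih =>
    rw [pow_succ, mul_add, mul_one]
    exact mul_mem_augPow ih ha

variable (p G) in
/-- The `n`-th dimension subgroup modulo `p` (the Zassenhaus, Jennings, Lazard filtration):
`D_n(G) = {g : g - 1 ∈ Δ^n}`. -/
noncomputable def dimSub (n : ℕ) : Subgroup G where
  carrier := {g | MonoidAlgebra.of (ZMod p) G g - 1 ∈ augPow p G n}
  one_mem' := by
    show MonoidAlgebra.of (ZMod p) G 1 - 1 ∈ augPow p G n
    rw [map_one, sub_self]
    exact Submodule.zero_mem _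
  mul_mem' := by
    intro a b ha hb
    have h : MonoidAlgebra.of (ZMod p) G (a * b) - 1
        = MonoidAlgebra.of (ZMod p) G a * (MonoidAlgebra.of (ZMod p) G b - 1)
          + (MonoidAlgebra.of (ZMod p) G a - 1) := by
      rw [map_mul]; noncomm_ring
    show MonoidAlgebra.of (ZMod p) G (a * b) - 1 ∈ augPow p G n
    rw [h]
    exact Submodule.add_mem _ (mul_left_mem_augPow _ hb) ha
  inv_mem' := by
    intro a ha
    have h : MonoidAlgebra.of (ZMod p) G a⁻¹ - 1
        = - (MonoidAlgebra.of (ZMod p) G a⁻¹ * (MonoidAlgebra.of (ZMod p) G a - 1)) := by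
      rw [mul_sub, ← map_mul, inv_mul_cancel, map_one, mul_one, neg_sub]
    show MonoidAlgebra.of (ZMod p) G a⁻¹ - 1 ∈ augPow p G n
    rw [h]
    exact Submodule.neg_mem _ (mul_left_mem_augPow _ ha)

lemma mem_dimSub (n : ℕ) (g : G) :
    g ∈ dimSub p G n ↔ MonoidAlgebra.of (ZMod p) G g - 1 ∈ augPow p G n := Iff.rfl

end Filt

end Pool.H67.Esq
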