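import Pool.Agent.H67.Esq.Conj

set_option autoImplicit false

/-!
# Lamps `g x^q g⁻¹`, `q = p^k`, and their commutators with `x^Q`, `Q = p^l`
-/

namespace Pool.H67.Esq

open scoped commutatorElement

variable {p : ℕ} [Fact p.Prime] {G : Type*} [Group G]


lemma mem_of_sub_mem {n : ℕ} {a b : (MonoidAlgebra (ZMod p) G)} (h : a - b ∈ augPow p G n) (hb : b ∈ augPow p G n) :
    a ∈ augPow p G n := by
  have : a = (a - b) + b := by abel
  rw [this]; exact Submodule.add_mem _ h hb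

lemma comm_mem {m n : ℕ} {a b : (MonoidAlgebra (ZMod p) G)} (ha : a ∈ augPow p G m) (hb : b ∈ augPow p G n) :
    a * b - b * a ∈ augPow p G (m + n) := by
  refine Submodule.sub_mem _ (mul_mem_augPow ha hb) ?_
  rw [add_comm]; exact mul_mem_augPow hb ha

lemma e_commutator (a b : G) :
    (MonoidAlgebra.of (ZMod p) G) ⁅a, b⁆ - 1 = (((MonoidAlgebra.of (ZMod p) G) a - 1) * ((MonoidAlgebra.of (ZMod p) G) b - 1) - ((MonoidAlgebra.of (ZMod p) G) b - 1) * ((MonoidAlgebra.of (ZMod p) G) a - 1)) * (MonoidAlgebra.of (ZMod p) G) (a⁻¹ * b⁻¹) := by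
  have h : (1 : (MonoidAlgebra (ZMod p) G)) = (MonoidAlgebra.of (ZMod p) G) (b * a) * (MonoidAlgebra.of (ZMod p) G) (a⁻¹ * b⁻¹) := by
    rw [← map_mul]
    have : b * a * (a⁻¹ * b⁻¹) = 1 := by group
    rw [this, map_one]
  rw [commutatorElement_def, show a * b * a⁻¹ * b⁻¹ = (a * b) * (a⁻¹ * b⁻¹) by group,
    map_mul ((MonoidAlgebra.of (ZMod p) G)) (a * b)]
  nth_rewrite 1 [h]
  rw [← sub_mul, map_mul, map_mul]
  noncomm_ring

lemma comm_approx {α β m : ℕ} {a b : G} (ha : (MonoidAlgebra.of (ZMod p) G) a - 1 ∈ augPow p G α)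
    (hb : (MonoidAlgebra.of (ZMod p) G) b - 1 ∈ augPow p G β) (hm1 : m ≤ α) (hm2 : m ≤ β) :
    (MonoidAlgebra.of (ZMod p) G) ⁅a, b⁆ - 1 - (((MonoidAlgebra.of (ZMod p) G) a - 1) * ((MonoidAlgebra.of (ZMod p) G) b - 1) - ((MonoidAlgebra.of (ZMod p) G) b - 1) * ((MonoidAlgebra.of (ZMod p) G) a - 1)) ∈ augPow p G (α + β + m) := by
  rw [e_commutator]
  set z := ((MonoidAlgebra.of (ZMod p) G) a - 1) * ((MonoidAlgebra.of (ZMod p) G) b - 1) - ((MonoidAlgebra.of (ZMod p) G) b - 1) * ((MonoidAlgebra.of (ZMod p) G) a - 1) with hz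
  have h1 : z ∈ augPow p G (α + β) := comm_mem ha hb
  have h2 : (MonoidAlgebra.of (ZMod p) G) (a⁻¹ * b⁻¹) - 1 ∈ augPow p G m := by
    have ha' : a ∈ dimSub p G m := augPow_anti hm1 ha
    have hb' : b ∈ dimSub p G m := augPow_anti hm2 hb
    exact (dimSub p G m).mul_mem ((dimSub p G m).inv_mem ha') ((dimSub p G m).inv_mem hb')
  have h3 : z * (MonoidAlgebra.of (ZMod p) G) (a⁻¹ * b⁻¹) - z = z * ((MonoidAlgebra.of (ZMod p) G) (a⁻¹ * b⁻¹) - 1) := by noncomm_ring
  rw [h3]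
  exact mul_mem_augPow h1 h2

/-- `ad X` -/
noncomputable def adE (X : (MonoidAlgebra (ZMod p) G)) : Module.End (ZMod p) (MonoidAlgebra (ZMod p) G) := LinearMap.mulLeft (ZMod p) X - LinearMap.mulRight (ZMod p) X

lemma adE_apply (X z : (MonoidAlgebra (ZMod p) G)) : adE X z = X * z - z * X := rfl

lemma adE_pow_char (X z : (MonoidAlgebra (ZMod p) G)) (k : ℕ) : (adE X ^ p ^ k) z = X ^ p ^ k * z - z * X ^ p ^ k := by
  have : Nontrivial (MonoidAlgebra (ZMod p) G) := inferInstance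
  have : CharP (Module.End (ZMod p) (MonoidAlgebra (ZMod p) G)) p :=
    charP_of_injective_algebraMap (algebraMap (ZMod p) (Module.End (ZMod p) (MonoidAlgebra (ZMod p) G))).injective p
  have h := sub_pow_char_pow_of_commute (R := Module.End (ZMod p) (MonoidAlgebra (ZMod p) G)) (p := p) (n := k)
    (x := LinearMap.mulLeft (ZMod p) X) (y := LinearMap.mulRight (ZMod p) X)
    (LinearMap.commute_mulLeft_right X X)
  rw [adE, h, LinearMap.pow_mulLeft, LinearMap.pow_mulRight]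
  rfl

lemma adE_mem {w n : ℕ} {X z : (MonoidAlgebra (ZMod p) G)} (hX : X ∈ augPow p G w) (hz : z ∈ augPow p G n) :
    adE X z ∈ augPow p G (w + n) := comm_mem hX hz

lemma adE_pow_mem {w n : ℕ} {X z : (MonoidAlgebra (ZMod p) G)} (hX : X ∈ augPow p G w) (hz : z ∈ augPow p G n) (m : ℕ) :
    (adE X ^ m) z ∈ augPow p G (n + w * m) := by
  induction m with
  | zero => simpa using hz
  | succ m ih =>
    rw [pow_succ', Module.End.mul_apply, show n + w * (m + 1) = w + (n + w * m) by ring]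
    exact adE_mem hX ih

lemma e_pow_char (x : G) (k : ℕ) : (MonoidAlgebra.of (ZMod p) G) (x ^ p ^ k) - 1 = ((MonoidAlgebra.of (ZMod p) G) x - 1) ^ p ^ k := by
  have : Nontrivial (MonoidAlgebra (ZMod p) G) := inferInstance
  have : CharP (MonoidAlgebra (ZMod p) G) p := charP_of_injective_algebraMap (algebraMap (ZMod p) (MonoidAlgebra (ZMod p) G)).injective p
  have h := sub_pow_char_pow_of_commute (R := (MonoidAlgebra (ZMod p) G)) (p := p) (n := k) (x := (MonoidAlgebra.of (ZMod p) G) x) (y := 1)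
    (Commute.one_right _)
  rw [h, one_pow, map_pow]

end Pool.H67.Esq
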