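import Pool.Agent.H67.Esq.Lamp

set_option autoImplicit false

/-!
# Many independent lamps
-/

namespace Pool.H67.Esq

open scoped commutatorElement

variable {p : ℕ} [Fact p.Prime] {G : Type*} [Group G]


/-- the elements `b m` of the conjugation module of `X^q` with leading part `ad(X)^{q+m} U` -/
lemma exists_b {x u : G} {w i : ℕ} (hx : (MonoidAlgebra.of (ZMod p) G) x - 1 ∈ augPow p G w)
    (hu : (MonoidAlgebra.of (ZMod p) G) u - 1 ∈ augPow p G i) (k m : ℕ) :
    ∃ f : (MonoidAlgebra (ZMod p) G), act f (((MonoidAlgebra.of (ZMod p) G) x - 1) ^ p ^ k) - (adE ((MonoidAlgebra.of (ZMod p) G) x - 1) ^ (p ^ k + m)) ((MonoidAlgebra.of (ZMod p) G) u - 1) ∈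
      augPow p G (i + w * (p ^ k + m) + 1) := by
  set X := (MonoidAlgebra.of (ZMod p) G) x - 1 with hX
  set U := (MonoidAlgebra.of (ZMod p) G) u - 1 with hU
  induction m with
  | zero =>
    refine ⟨1 - (MonoidAlgebra.of (ZMod p) G) u, ?_⟩
    have h1 : act (1 - (MonoidAlgebra.of (ZMod p) G) u) (X ^ p ^ k) = (X ^ p ^ k * U - U * X ^ p ^ k) * (MonoidAlgebra.of (ZMod p) G) u⁻¹ := by
      rw [map_sub, map_one, LinearMap.sub_apply, act_of, Module.End.one_apply]
      have h := e_mul_inv (p := p) u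
      calc X ^ p ^ k - (MonoidAlgebra.of (ZMod p) G) u * X ^ p ^ k * (MonoidAlgebra.of (ZMod p) G) u⁻¹
          = X ^ p ^ k * ((MonoidAlgebra.of (ZMod p) G) u * (MonoidAlgebra.of (ZMod p) G) u⁻¹) - (MonoidAlgebra.of (ZMod p) G) u * X ^ p ^ k * (MonoidAlgebra.of (ZMod p) G) u⁻¹ := by rw [h, mul_one]
        _ = _ := by rw [hU]; noncomm_ring
    rw [h1, add_zero, adE_pow_char]
    have h2 : (X ^ p ^ k * U - U * X ^ p ^ k) * (MonoidAlgebra.of (ZMod p) G) u⁻¹ - (X ^ p ^ k * U - U * X ^ p ^ k)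
        = (X ^ p ^ k * U - U * X ^ p ^ k) * ((MonoidAlgebra.of (ZMod p) G) u⁻¹ - 1) := by noncomm_ring
    rw [h2]
    have h3 : X ^ p ^ k * U - U * X ^ p ^ k ∈ augPow p G (w * p ^ k + i) :=
      comm_mem (pow_mem_augPow hx _) hu
    rw [show i + w * p ^ k + 1 = (w * p ^ k + i) + 1 by ring]
    exact mul_mem_augPow h3 (of_sub_one_mem _)
  | succ m ih =>
    obtain ⟨f, hf⟩ := ih
    refine ⟨((MonoidAlgebra.of (ZMod p) G) x - 1) * f, ?_⟩
    set b := act f (X ^ p ^ k) with hb
    set z := (adE X ^ (p ^ k + m)) U with hz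
    have hzm : z ∈ augPow p G (i + w * (p ^ k + m)) := adE_pow_mem hx hu _
    have hbm : b ∈ augPow p G (i + w * (p ^ k + m)) :=
      mem_of_sub_mem (augPow_succ_le _ hf) hzm
    have h1 : act (((MonoidAlgebra.of (ZMod p) G) x - 1) * f) (X ^ p ^ k) = (X * b - b * X) * (MonoidAlgebra.of (ZMod p) G) x⁻¹ := by
      rw [map_mul, map_sub, map_one, Module.End.mul_apply, LinearMap.sub_apply, ← hb, act_of,
        Module.End.one_apply]
      have h := e_mul_inv (p := p) x
      calc (MonoidAlgebra.of (ZMod p) G) x * b * (MonoidAlgebra.of (ZMod p) G) x⁻¹ - b = (MonoidAlgebra.of (ZMod p) G) x * b * (MonoidAlgebra.of (ZMod p) G) x⁻¹ - b * ((MonoidAlgebra.of (ZMod p) G) x * (MonoidAlgebra.of (ZMod p) G) x⁻¹) := by rw [h, mul_one]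
        _ = _ := by rw [hX]; noncomm_ring
    have h2 : (adE X ^ (p ^ k + (m + 1))) U = X * z - z * X := by
      rw [← add_assoc, pow_succ', Module.End.mul_apply, ← hz]; rfl
    rw [h1, h2]
    have h3 : (X * b - b * X) * (MonoidAlgebra.of (ZMod p) G) x⁻¹ - (X * z - z * X)
        = (X * b - b * X) * ((MonoidAlgebra.of (ZMod p) G) x⁻¹ - 1) + (X * (b - z) - (b - z) * X) := by noncomm_ring
    rw [h3]
    refine Submodule.add_mem _ ?_ ?_
    · have h4 := mul_mem_augPow (comm_mem hx hbm) (of_sub_one_mem (p := p) x⁻¹)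
      rw [show i + w * (p ^ k + (m + 1)) + 1 = w + (i + w * (p ^ k + m)) + 1 by ring]
      exact h4
    · have h4 := comm_mem hx hf
      rw [show i + w * (p ^ k + (m + 1)) + 1 = w + (i + w * (p ^ k + m) + 1) by ring]
      exact h4

/-- filtration criterion for linear independence modulo `Δ^N`. -/
lemma linInd_of_filt {r N : ℕ} (y : Fin r → (MonoidAlgebra (ZMod p) G)) (E : ℕ → ℕ) (hE : StrictMono E)
    (h1 : ∀ m : Fin r, y m ∈ augPow p G (E m)) (h2 : ∀ m : Fin r, y m ∉ augPow p G (E m + 1))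
    (h3 : ∀ m : Fin r, E m < N) :
    LinearIndependent (ZMod p) (fun m => (augPow p G N).mkQ (y m)) := by
  rw [Fintype.linearIndependent_iff]
  intro g hg
  have hg' : ∑ m, g m • y m ∈ augPow p G N := by
    rw [← Submodule.ker_mkQ (augPow p G N), LinearMap.mem_ker, map_sum]
    simpa using hg
  have key : ∀ n : ℕ, ∀ m : Fin r, (m : ℕ) = n → g m = 0 := by
    intro n
    induction n using Nat.strong_induction_on with
    | _ n ih =>
      intro m hm
      by_contra hne
      apply h2 m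
      have hsum : g m • y m = (∑ j, g j • y j) - ∑ j ∈ Finset.univ.erase m, g j • y j := by
        rw [← Finset.add_sum_erase _ _ (Finset.mem_univ m)]; abel
      have hmem : g m • y m ∈ augPow p G (E m + 1) := by
        rw [hsum]
        refine Submodule.sub_mem _ (augPow_anti (h3 m) hg') (Submodule.sum_mem _ ?_)
        intro j hj
        rcases lt_trichotomy (j : ℕ) (m : ℕ) with h | h | h
        · rw [ih j (hm ▸ h) j rfl, zero_smul]; exact Submodule.zero_mem _
        · exact absurd (Fin.ext h) (Finset.ne_of_mem_erase hj)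
        · exact Submodule.smul_mem _ _ (augPow_anti (hE h) (h1 j))
      have : y m = (g m)⁻¹ • (g m • y m) := by rw [smul_smul, inv_mul_cancel₀ hne, one_smul]
      rw [this]
      exact Submodule.smul_mem _ _ hmem
  exact fun m => key m m rfl

/-- from a spanning set one can choose as many independent vectors as one finds in the span. -/
lemma exists_fin_linInd {V : Type*} [AddCommGroup V] [Module (ZMod p) V] {ι : Type*} (v : ι → V)
    (T : Set ι) (hT : T.Finite) {r : ℕ} (y : Fin r → V) (hy : LinearIndependent (ZMod p) y)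
    (hspan : ∀ m, y m ∈ Submodule.span (ZMod p) (v '' T)) :
    ∃ j : Fin r → ι, (∀ m, j m ∈ T) ∧ LinearIndependent (ZMod p) (fun m => v (j m)) := by
  classical
  obtain ⟨b, hbT, hbspan, hbind⟩ := exists_linearIndependent (ZMod p) (v '' T)
  have hbfin : b.Finite := (hT.image v).subset hbT
  let _ := hbfin.fintype
  have hcard : r ≤ Fintype.card b := by
    have h := linearIndependent_le_span' y hy b (by
      rintro _ ⟨m, rfl⟩
      rw [hbspan]; exact hspan m)
    simpa using h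
  obtain ⟨f⟩ : Nonempty (Fin r ↪ b) := Function.Embedding.nonempty_of_card_le (by simpa using hcard)
  choose j hj using fun m : Fin r => hbT (f m).2
  refine ⟨j, fun m => (hj m).1, ?_⟩
  have : (fun m => v (j m)) = (fun x : b => (x : V)) ∘ f := by
    funext m; exact (hj m).2
  rw [this]
  exact hbind.comp f f.injective

/-- the main selection lemma -/
lemma exists_lamps (S : Finset G) (hS : Subgroup.closure (S : Set G) = ⊤) {x u : G} {w i : ℕ}
    (hw : 1 ≤ w) (hx : (MonoidAlgebra.of (ZMod p) G) x - 1 ∈ augPow p G w) (hu : (MonoidAlgebra.of (ZMod p) G) u - 1 ∈ augPow p G i)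
    (hnil : ∀ n, (adE ((MonoidAlgebra.of (ZMod p) G) x - 1) ^ n) ((MonoidAlgebra.of (ZMod p) G) u - 1) ∉ augPow p G (i + w * n + 1)) (k l : ℕ) :
    ∃ g : Fin (p ^ k - i) → G, (∀ j, g j ∈ wordBall S (w * p ^ k)) ∧
      LinearIndependent (ZMod p) (fun j => (augPow p G (w * (2 * p ^ k + p ^ l))).mkQ
        (((MonoidAlgebra.of (ZMod p) G) x - 1) ^ p ^ l * act ((MonoidAlgebra.of (ZMod p) G) (g j)) (((MonoidAlgebra.of (ZMod p) G) x - 1) ^ p ^ k)
          - act ((MonoidAlgebra.of (ZMod p) G) (g j)) (((MonoidAlgebra.of (ZMod p) G) x - 1) ^ p ^ k) * ((MonoidAlgebra.of (ZMod p) G) x - 1) ^ p ^ l)) := by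
  set X := (MonoidAlgebra.of (ZMod p) G) x - 1 with hX
  set U := (MonoidAlgebra.of (ZMod p) G) u - 1 with hU
  set q := p ^ k with hq
  set Q := p ^ l with hQ
  have hq1 : 1 ≤ q := Nat.one_le_pow _ _ (Fact.out : p.Prime).pos
  choose f hf using fun m => exists_b (p := p) hx hu k m
  have hXQ : X ^ Q ∈ augPow p G (w * Q) := pow_mem_augPow hx _
  have hXq : X ^ q ∈ augPow p G (w * q) := pow_mem_augPow hx _
  set N := w * (2 * q + Q) with hN
  have hy1 : ∀ m : ℕ, (X ^ Q * act (f m) (X ^ q) - act (f m) (X ^ q) * X ^ Q)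
      - (adE X ^ (Q + (q + m))) U ∈ augPow p G (i + w * (Q + (q + m)) + 1) := by
    intro m
    have h1 : (adE X ^ (Q + (q + m))) U = X ^ Q * (adE X ^ (q + m)) U
        - (adE X ^ (q + m)) U * X ^ Q := by
      rw [pow_add, Module.End.mul_apply, hQ, adE_pow_char]
    rw [h1]
    have h2 : (X ^ Q * act (f m) (X ^ q) - act (f m) (X ^ q) * X ^ Q)
        - (X ^ Q * (adE X ^ (q + m)) U - (adE X ^ (q + m)) U * X ^ Q)
        = X ^ Q * (act (f m) (X ^ q) - (adE X ^ (q + m)) U)
          - (act (f m) (X ^ q) - (adE X ^ (q + m)) U) * X ^ Q := by noncomm_ring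
    rw [h2, show i + w * (Q + (q + m)) + 1 = w * Q + (i + w * (q + m) + 1) by ring]
    exact comm_mem hXQ (hf m)
  have hy2 : ∀ m : ℕ, X ^ Q * act (f m) (X ^ q) - act (f m) (X ^ q) * X ^ Q
      ∈ augPow p G (i + w * (Q + (q + m))) := fun m =>
    mem_of_sub_mem (augPow_succ_le _ (hy1 m)) (adE_pow_mem hx hu _)
  have hy3 : ∀ m : ℕ, X ^ Q * act (f m) (X ^ q) - act (f m) (X ^ q) * X ^ Q
      ∉ augPow p G (i + w * (Q + (q + m)) + 1) := by
    intro m hm
    apply hnil (Q + (q + m))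
    have h := Submodule.sub_mem _ hm (hy1 m)
    rwa [sub_sub_cancel] at h
  have hlin := linInd_of_filt (p := p) (r := q - i) (N := N)
    (fun m => X ^ Q * act (f m) (X ^ q) - act (f m) (X ^ q) * X ^ Q)
    (fun m => i + w * (Q + (q + m)))
    (fun a b hab => by
      show i + w * (Q + (q + a)) < i + w * (Q + (q + b))
      have : w * (Q + (q + a)) < w * (Q + (q + b)) :=
        Nat.mul_lt_mul_of_pos_left (by omega) hw
      omega)
    (fun m => hy2 m) (fun m => hy3 m)
    (fun m => by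
      show i + w * (Q + (q + (m : ℕ))) < N
      have hm := m.2
      have h1 : (m : ℕ) + i + 1 ≤ q := by omega
      have h2 : w * ((m : ℕ) + i + 1) ≤ w * q := Nat.mul_le_mul_left w h1
      have h3 : i ≤ w * i := Nat.le_mul_of_pos_left i hw
      have h4 : w * (Q + (q + (m : ℕ))) + (w * i + w) ≤ N := by
        rw [hN]; nlinarith
      omega)
  refine exists_fin_linInd (p := p)
    (fun g : G => (augPow p G N).mkQ (X ^ Q * act ((MonoidAlgebra.of (ZMod p) G) g) (X ^ q) - act ((MonoidAlgebra.of (ZMod p) G) g) (X ^ q) * X ^ Q))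
    (wordBall S (w * q)) (wordBall_finite S _) _ hlin ?_
  intro m
  -- the linear map `c ↦ [X^Q, act c X^q] mod Δ^N`
  let Φ : (MonoidAlgebra (ZMod p) G) →ₗ[(ZMod p)] ((MonoidAlgebra (ZMod p) G) ⧸ augPow p G N) :=
    (augPow p G N).mkQ ∘ₗ
      ((LinearMap.mulLeft (ZMod p) (X ^ Q) - LinearMap.mulRight (ZMod p) (X ^ Q)) ∘ₗ
        ((act (p := p) (G := G)).toLinearMap.flip (X ^ q)))
  have hΦ : ∀ c : (MonoidAlgebra (ZMod p) G), Φ c = (augPow p G N).mkQ (X ^ Q * act c (X ^ q) - act c (X ^ q) * X ^ Q) :=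
    fun c => rfl
  show (augPow p G N).mkQ (X ^ Q * act (f m) (X ^ q) - act (f m) (X ^ q) * X ^ Q) ∈ _
  rw [← hΦ]
  obtain ⟨v, hv, d, hd, hvd⟩ := Submodule.mem_sup.1 (top_le_ballSpan_sup (p := p) S hS (w * q) (f m))
  rw [← hvd, map_add]
  have hd0 : Φ d = 0 := by
    rw [hΦ, Submodule.mkQ_apply, Submodule.Quotient.mk_eq_zero]
    have h1 : act d (X ^ q) ∈ augPow p G (w * q + 1 + w * q) := act_mem_add hd hXq
    have h2 := comm_mem hXQ h1
    refine augPow_anti ?_ h2
    rw [hN]; nlinarith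
  rw [hd0, add_zero]
  have hmap : Submodule.map Φ (ballSpan (p := p) S (w * q)) ≤
      Submodule.span (ZMod p) ((fun g : G => (augPow p G N).mkQ
        (X ^ Q * act ((MonoidAlgebra.of (ZMod p) G) g) (X ^ q) - act ((MonoidAlgebra.of (ZMod p) G) g) (X ^ q) * X ^ Q)) '' wordBall S (w * q)) := by
    rw [ballSpan, Submodule.map_span, ← Set.image_comp]
    exact le_of_eq rfl
  exact hmap (Submodule.mem_map_of_mem hv)

end Pool.H67.Esq
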