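import Pool.Agent.H67.Esq.Count
import Pool.Agent.H67.Esq.Analytic

set_option autoImplicit false

/-!
# Growth below `exp(c √(n log n))` forces the Zassenhaus Lie algebra to be nil
-/

namespace Pool.H67.Esq

open scoped commutatorElement

variable {p : ℕ} [Fact p.Prime] {G : Type*} [Group G]


/-- The iterated commutator `[u, x, ..., x]` (`n` times `x`). -/
def iterComm (u x : G) : ℕ → G
  | 0 => u
  | n + 1 => ⁅iterComm u x n, x⁆

lemma comm_aux (E C X z : (MonoidAlgebra (ZMod p) G)) (t : (ZMod p)) : E - (t * (-1)) • (X * z - z * X)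
    = (E - (C * X - X * C)) + ((C - t • z) * X - X * (C - t • z)) := by
  rw [sub_mul C, mul_sub X C, smul_mul_assoc, mul_smul_comm, mul_neg_one, neg_smul, smul_sub]
  abel

lemma iterComm_approx {x u : G} {w i : ℕ} (hi : 1 ≤ i) (hw : 1 ≤ w)
    (hx : (MonoidAlgebra.of (ZMod p) G) x - 1 ∈ augPow p G w) (hu : (MonoidAlgebra.of (ZMod p) G) u - 1 ∈ augPow p G i) (n : ℕ) :
    (MonoidAlgebra.of (ZMod p) G) (iterComm u x n) - 1 - (-1 : (ZMod p)) ^ n • (adE ((MonoidAlgebra.of (ZMod p) G) x - 1) ^ n) ((MonoidAlgebra.of (ZMod p) G) u - 1)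
      ∈ augPow p G (i + w * n + 1) := by
  set X := (MonoidAlgebra.of (ZMod p) G) x - 1 with hX
  set U := (MonoidAlgebra.of (ZMod p) G) u - 1 with hU
  induction n with
  | zero => simp [iterComm, hU]
  | succ n ih =>
    set z := (adE X ^ n) U with hz
    set c := iterComm u x n with hc
    have hzm : z ∈ augPow p G (i + w * n) := adE_pow_mem hx hu _
    have hcm : (MonoidAlgebra.of (ZMod p) G) c - 1 ∈ augPow p G (i + w * n) :=
      mem_of_sub_mem (augPow_succ_le _ ih) (Submodule.smul_mem _ _ hzm)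
    have h1 := comm_approx (p := p) (m := 1) hcm hx (by omega) hw
    have h2 : (adE X ^ (n + 1)) U = X * z - z * X := by
      rw [pow_succ', Module.End.mul_apply, ← hz]; rfl
    show (MonoidAlgebra.of (ZMod p) G) ⁅c, x⁆ - 1 - (-1 : (ZMod p)) ^ (n + 1) • (adE X ^ (n + 1)) U ∈ _
    rw [h2]
    have h3 : (MonoidAlgebra.of (ZMod p) G) ⁅c, x⁆ - 1 - (-1 : (ZMod p)) ^ (n + 1) • (X * z - z * X)
        = ((MonoidAlgebra.of (ZMod p) G) ⁅c, x⁆ - 1 - (((MonoidAlgebra.of (ZMod p) G) c - 1) * X - X * ((MonoidAlgebra.of (ZMod p) G) c - 1)))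
          + (((MonoidAlgebra.of (ZMod p) G) c - 1 - (-1 : (ZMod p)) ^ n • z) * X - X * ((MonoidAlgebra.of (ZMod p) G) c - 1 - (-1 : (ZMod p)) ^ n • z)) := by
      rw [pow_succ]
      exact comm_aux _ _ _ _ _
    rw [h3]
    refine Submodule.add_mem _ (augPow_anti ?_ h1) ?_
    · have : i + w * (n + 1) + 1 = i + w * n + w + 1 := by ring
      omega
    · have h4 := comm_mem ih hx
      rw [show i + w * (n + 1) + 1 = (i + w * n + 1) + w by ring]
      exact h4

lemma adE_not_mem_of_iterComm {x u : G} {w i : ℕ} (hi : 1 ≤ i) (hw : 1 ≤ w)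
    (hx : x ∈ dimSub p G w) (hu : u ∈ dimSub p G i)
    (n : ℕ) (h : iterComm u x n ∉ dimSub p G (i + w * n + 1)) :
    (adE ((MonoidAlgebra.of (ZMod p) G) x - 1) ^ n) ((MonoidAlgebra.of (ZMod p) G) u - 1) ∉ augPow p G (i + w * n + 1) := by
  intro hmem
  apply h
  exact mem_of_sub_mem (iterComm_approx hi hw hx hu n) (Submodule.smul_mem _ _ hmem)

lemma two_le_growth (S : Finset G) (hS : Subgroup.closure (S : Set G) = ⊤) {g : G} (hg : g ≠ 1)
    {n : ℕ} (hn : 1 ≤ n) : 2 ≤ growth S n := by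
  classical
  obtain ⟨s, hs, hs1⟩ : ∃ s ∈ S, s ≠ 1 := by
    by_contra hcon
    push Not at hcon
    apply hg
    have h1 : g ∈ Subgroup.closure (S : Set G) := by rw [hS]; trivial
    have h2 : Subgroup.closure (S : Set G) ≤ ⊥ := by
      rw [Subgroup.closure_le]
      intro s hs
      simpa using hcon s hs
    simpa using h2 h1
  have h3 := card_le_growth S n {1, s} (by
    intro a ha
    simp only [Finset.mem_insert, Finset.mem_singleton] at ha
    rcases ha with rfl | rfl
    · exact one_mem_wordBall S n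
    · exact wordBall_mono S hn (gen_mem_wordBall S hs))
  rwa [Finset.card_pair (Ne.symm hs1)] at h3

/-- **Lower bound**: if `ad x` is not locally nilpotent on the Zassenhaus Lie algebra, witnessed
by `u`, then the growth is at least `exp(c √(n log n))`. -/
theorem growth_of_not_nil (S : Finset G) (hS : Subgroup.closure (S : Set G) = ⊤) (w i : ℕ)
    (hi : 1 ≤ i) (hw : 1 ≤ w) (x u : G) (hx : x ∈ dimSub p G w) (hu : u ∈ dimSub p G i)
    (hnil : ∀ n, iterComm u x n ∉ dimSub p G (i + w * n + 1)) :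
    ∃ c : ℝ, 0 < c ∧ ∀ n : ℕ, 2 ≤ n →
      Real.exp (c * Real.sqrt ((n : ℝ) * Real.log n)) ≤ growth S n := by
  have hp := (Fact.out : p.Prime)
  obtain ⟨ℓ, hl⟩ := exists_mem_wordBall S hS x
  have hnil' := fun n => adE_not_mem_of_iterComm hi hw hx hu n (hnil n)
  have hu1 : u ≠ 1 := by
    rintro rfl
    exact hnil 0 (Subgroup.one_mem _)
  refine analytic_interp (growth S) (growth_mono S) (fun n hn => two_le_growth S hS hu1 hn)
    p hp.two_le (4 * ℓ + 4 * w) (by omega) (Real.log 2 / 2)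
    (by have := Real.log_pos (show (1 : ℝ) < 2 by norm_num); linarith) (2 * i) ?_
  intro k hk
  have h1 := growth_levels (p := p) S hS hw hx hu hl hnil' k
  have h2 : (4 * ℓ + 4 * w) * ((k + 1) * p ^ (2 * k))
      = (k + 1) * (p ^ (2 * k) * (4 * ℓ + 4 * w)) := by ring
  rw [h2]
  refine le_trans ?_ (by exact_mod_cast h1 : ((2 ^ ((k + 1) * (p ^ k - i)) : ℕ) : ℝ) ≤ _)
  push_cast
  rw [← Real.exp_log (show (0 : ℝ) < 2 by norm_num), ← Real.exp_nat_mul, Real.exp_log (by norm_num)]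
  apply Real.exp_le_exp.2
  have h3 : 2 * i ≤ p ^ k := by
    have h4 : k < 2 ^ k := Nat.lt_two_pow_self
    have h5 : 2 ^ k ≤ p ^ k := Nat.pow_le_pow_left hp.two_le k
    omega
  have h6 : (p : ℝ) ^ k / 2 ≤ ((p ^ k - i : ℕ) : ℝ) := by
    rw [Nat.cast_sub (by omega)]
    have h7 : (2 : ℝ) * i ≤ (p : ℝ) ^ k := by exact_mod_cast h3
    push_cast
    linarith
  have h8 : (0 : ℝ) < Real.log 2 := Real.log_pos (by norm_num)
  have h9 : (0 : ℝ) ≤ (k : ℝ) + 1 := by positivity
  push_cast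
  calc Real.log 2 / 2 * ((k : ℝ) + 1) * (p : ℝ) ^ k
      = ((k : ℝ) + 1) * ((p : ℝ) ^ k / 2) * Real.log 2 := by ring
    _ ≤ ((k : ℝ) + 1) * ((p ^ k - i : ℕ) : ℝ) * Real.log 2 :=
        mul_le_mul_of_nonneg_right (mul_le_mul_of_nonneg_left h6 h9) h8.le

/-- the derivation `[X^q, ·]`, `q = p^a`, raises the filtration by `w q + 1` once it does so on
the generators -/
lemma ad_raise (S : Finset G) (hS : Subgroup.closure (S : Set G) = ⊤) {N : ℕ} {Y : (MonoidAlgebra (ZMod p) G)}
    (hY : Y ∈ augPow p G N)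
    (hgen : ∀ s ∈ S, Y * ((MonoidAlgebra.of (ZMod p) G) s - 1) - ((MonoidAlgebra.of (ZMod p) G) s - 1) * Y ∈ augPow p G (N + 2)) :
    ∀ n : ℕ, ∀ f ∈ augPow p G n, Y * f - f * Y ∈ augPow p G (N + n + 1) := by
  -- elements of the right ideal generated by `s - 1`
  have hJ0 : ∀ f ∈ genIdeal (p := p) S, Y * f - f * Y ∈ augPow p G (N + 1) := by
    intro f hf
    induction hf using Submodule.span_induction with
    | mem f hf =>
      obtain ⟨s, hs, r, rfl⟩ := hf
      have h1 : Y * (((MonoidAlgebra.of (ZMod p) G) s - 1) * r) - ((MonoidAlgebra.of (ZMod p) G) s - 1) * r * Y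
          = (Y * ((MonoidAlgebra.of (ZMod p) G) s - 1) - ((MonoidAlgebra.of (ZMod p) G) s - 1) * Y) * r + ((MonoidAlgebra.of (ZMod p) G) s - 1) * (Y * r - r * Y) := by noncomm_ring
      rw [h1]
      refine Submodule.add_mem _ (mul_right_mem_augPow (augPow_anti (by omega) (hgen s hs)) _) ?_
      have h2 : Y * r - r * Y ∈ augPow p G N :=
        Submodule.sub_mem _ (mul_right_mem_augPow hY r) (mul_left_mem_augPow r hY)
      rw [add_comm]
      exact mul_mem_augPow (of_sub_one_mem s) h2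
    | zero => simp
    | add f g _ _ hf hg =>
      have h1 : Y * (f + g) - (f + g) * Y = (Y * f - f * Y) + (Y * g - g * Y) := by noncomm_ring
      rw [h1]; exact Submodule.add_mem _ hf hg
    | smul c f _ hf =>
      have h1 : Y * (c • f) - (c • f) * Y = c • (Y * f - f * Y) := by
        rw [mul_smul_comm, smul_mul_assoc, smul_sub]
      rw [h1]; exact Submodule.smul_mem _ _ hf
  have h0 : ∀ f : (MonoidAlgebra (ZMod p) G), Y * f - f * Y ∈ augPow p G (N + 1) := by
    intro f
    have h1 : Y * f - f * Y = Y * (f - aug p G f • 1) - (f - aug p G f • 1) * Y := by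
      rw [mul_sub, sub_mul, mul_smul_comm, smul_mul_assoc, mul_one, one_mul]; abel
    rw [h1]
    exact hJ0 _ (sub_aug_mem_genIdeal S hS f)
  have hJ1 : ∀ f ∈ genIdeal (p := p) S, Y * f - f * Y ∈ augPow p G (N + 2) := by
    intro f hf
    induction hf using Submodule.span_induction with
    | mem f hf =>
      obtain ⟨s, hs, r, rfl⟩ := hf
      have h1 : Y * (((MonoidAlgebra.of (ZMod p) G) s - 1) * r) - ((MonoidAlgebra.of (ZMod p) G) s - 1) * r * Y
          = (Y * ((MonoidAlgebra.of (ZMod p) G) s - 1) - ((MonoidAlgebra.of (ZMod p) G) s - 1) * Y) * r + ((MonoidAlgebra.of (ZMod p) G) s - 1) * (Y * r - r * Y) := by noncomm_ring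
      rw [h1]
      refine Submodule.add_mem _ (mul_right_mem_augPow (hgen s hs) _) ?_
      rw [show N + 2 = 1 + (N + 1) by ring]
      exact mul_mem_augPow (of_sub_one_mem s) (h0 r)
    | zero => simp
    | add f g _ _ hf hg =>
      have h1 : Y * (f + g) - (f + g) * Y = (Y * f - f * Y) + (Y * g - g * Y) := by noncomm_ring
      rw [h1]; exact Submodule.add_mem _ hf hg
    | smul c f _ hf =>
      have h1 : Y * (c • f) - (c • f) * Y = c • (Y * f - f * Y) := by
        rw [mul_smul_comm, smul_mul_assoc, smul_sub]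
      rw [h1]; exact Submodule.smul_mem _ _ hf
  intro n
  induction n with
  | zero => intro f _; exact h0 f
  | succ n ih =>
    intro f hf
    have hf' : f ∈ augIdeal p G * augPow p G n := hf
    induction hf' using Submodule.mul_induction_on' with
    | mem_mul_mem a ha b hb =>
      have h1 : Y * (a * b) - a * b * Y
          = (Y * a - a * Y) * b + a * (Y * b - b * Y) := by noncomm_ring
      rw [h1]
      have h2 : a ∈ genIdeal (p := p) S := by
        have h3 := sub_aug_mem_genIdeal (p := p) S hS a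
        rwa [(mem_augIdeal a).1 ha, zero_smul, sub_zero] at h3
      refine Submodule.add_mem _ ?_ ?_
      · rw [show N + (n + 1) + 1 = (N + 2) + n by ring]
        exact mul_mem_augPow (hJ1 a h2) hb
      · rw [show N + (n + 1) + 1 = 1 + (N + n + 1) by ring]
        exact mul_mem_augPow (augIdeal_le ha) (ih b hb)
    | add a ha b hb h1 h2 =>
      have h3 : Y * (a + b) - (a + b) * Y = (Y * a - a * Y) + (Y * b - b * Y) := by noncomm_ring
      rw [h3]
      exact Submodule.add_mem _ (h1 ha) (h2 hb)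

/-- local nilpotency on the generators implies nilpotency -/
theorem nil_of_forall (S : Finset G) (hS : Subgroup.closure (S : Set G) = ⊤) (w : ℕ)
    (hw : 1 ≤ w) (x : G) (hx : x ∈ dimSub p G w)
    (hloc : ∀ s ∈ S, ∃ n, iterComm s x n ∈ dimSub p G (1 + w * n + 1)) :
    ∃ N, 1 ≤ N ∧ ∀ i, 1 ≤ i → ∀ u ∈ dimSub p G i,
      iterComm u x N ∈ dimSub p G (i + w * N + 1) := by
  have hp := (Fact.out : p.Prime)
  have hX : (MonoidAlgebra.of (ZMod p) G) x - 1 ∈ augPow p G w := hx
  choose! n hn using hloc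
  obtain ⟨a, ha⟩ : ∃ a, ∀ s ∈ S, n s ≤ p ^ a := by
    refine ⟨S.sup n, fun s hs => ?_⟩
    have h1 : n s ≤ S.sup n := Finset.le_sup hs
    have h2 : S.sup n < p ^ (S.sup n) := Nat.lt_pow_self hp.one_lt
    omega
  have hring : ∀ s ∈ S, (((MonoidAlgebra.of (ZMod p) G) x - 1) ^ p ^ a) * ((MonoidAlgebra.of (ZMod p) G) s - 1) - ((MonoidAlgebra.of (ZMod p) G) s - 1) * (((MonoidAlgebra.of (ZMod p) G) x - 1) ^ p ^ a)
      ∈ augPow p G (w * p ^ a + 2) := by
    intro s hs
    rw [← adE_pow_char]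
    have hs1 : (MonoidAlgebra.of (ZMod p) G) s - 1 ∈ augPow p G 1 := of_sub_one_mem s
    have h1 : (adE ((MonoidAlgebra.of (ZMod p) G) x - 1) ^ n s) ((MonoidAlgebra.of (ZMod p) G) s - 1) ∈ augPow p G (1 + w * n s + 1) := by
      have h2 := iterComm_approx le_rfl hw hX hs1 (n s)
      have h3 : (MonoidAlgebra.of (ZMod p) G) (iterComm s x (n s)) - 1 ∈ augPow p G (1 + w * n s + 1) := hn s hs
      have h4 := Submodule.sub_mem _ h3 h2
      rw [sub_sub_cancel] at h4
      have h5 := Submodule.smul_mem _ ((-1 : (ZMod p)) ^ n s) h4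
      rwa [smul_smul, ← mul_pow, neg_one_mul, neg_neg, one_pow, one_smul] at h5
    obtain ⟨m, hm⟩ := Nat.exists_eq_add_of_le (ha s hs)
    rw [hm, add_comm (n s) m, pow_add, Module.End.mul_apply]
    have h6 := adE_pow_mem hX h1 m
    rw [show w * (m + n s) + 2 = 1 + w * n s + 1 + w * m by ring]
    exact h6
  refine ⟨p ^ a, Nat.one_le_pow _ _ hp.pos, ?_⟩
  intro i hi u hu
  have h1 := ad_raise (p := p) S hS (pow_mem_augPow hX (p ^ a)) hring i ((MonoidAlgebra.of (ZMod p) G) u - 1) hu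
  rw [← adE_pow_char] at h1
  have h2 := iterComm_approx hi hw hX hu (p ^ a)
  show (MonoidAlgebra.of (ZMod p) G) (iterComm u x (p ^ a)) - 1 ∈ augPow p G (i + w * p ^ a + 1)
  refine mem_of_sub_mem h2 (Submodule.smul_mem _ _ ?_)
  rw [show i + w * p ^ a + 1 = w * p ^ a + i + 1 by ring]
  exact h1

/-- **Nil criterion.** -/
theorem nil_of_growth (S : Finset G) (hS : Subgroup.closure (S : Set G) = ⊤)
    (C : ℝ) (hC : ∀ n : ℕ, (growth S n : ℝ) ≤ Real.exp (Real.sqrt (C * n)))
    (w : ℕ) (hw : 1 ≤ w) (x : G) (hx : x ∈ dimSub p G w) :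
    ∃ N, 1 ≤ N ∧ ∀ i, 1 ≤ i → ∀ u ∈ dimSub p G i,
      iterComm u x N ∈ dimSub p G (i + w * N + 1) := by
  apply nil_of_forall S hS w hw x hx
  intro s _
  by_contra hcon
  push Not at hcon
  obtain ⟨c, hc, h⟩ := growth_of_not_nil (p := p) S hS w 1 le_rfl hw x s hx (of_sub_one_mem s) hcon
  exact not_le_exp_sqrt (growth S) c hc h C hC

end Pool.H67.Esq
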