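import Mathlib
import Pool.Agent.H67.Esq.Nil

set_option autoImplicit false

/-!
# Growth at most `e^{√n}` forces the Zassenhaus Lie algebra to be nil
-/

namespace Pool.H67.Esq

/-- `L_p(G) = ⊕ D_w / D_{w+1}` is nil: every homogeneous element `x D_{w+1}`, `x ∈ D_w`, is
ad-nilpotent, i.e. for some `N ≥ 1` the commutators `[u, x, ..., x]` (`N` times) with `u ∈ D_i`
lie in `D_{i + wN + 1}`, for all `i ≥ 1`. -/
def ZassenhausNil (p : ℕ) [Fact p.Prime] (G : Type*) [Group G] : Prop :=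
  ∀ w : ℕ, 1 ≤ w → ∀ x ∈ dimSub p G w, ∃ N : ℕ, 1 ≤ N ∧ ∀ i : ℕ, 1 ≤ i → ∀ u ∈ dimSub p G i,
    iterComm u x N ∈ dimSub p G (i + w * N + 1)

/-- **Theorem.** Let `G` be generated by the finite set `S` and let `p` be a prime. If the
Zassenhaus Lie algebra `L_p(G)` is not nil, then the growth of `G` is at least
`exp (c √(n log n))`. In particular, if `γ_G ≼ e^{√n}`, then `L_p(G)` is nil for every `p`. -/
theorem nil_main {G : Type*} [Group G] (S : Finset G)
    (hS : Subgroup.closure (S : Set G) = ⊤) (p : ℕ) [Fact p.Prime] :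
    (¬ ZassenhausNil p G → ∃ c : ℝ, 0 < c ∧ ∀ n : ℕ, 2 ≤ n →
      Real.exp (c * Real.sqrt ((n : ℝ) * Real.log n)) ≤ growth S n) ∧
    ((∃ C : ℝ, 1 ≤ C ∧ ∀ n : ℕ, (growth S n : ℝ) ≤ Real.exp (Real.sqrt (C * n))) →
      ZassenhausNil p G) := by
  have h1 : ¬ ZassenhausNil p G → ∃ c : ℝ, 0 < c ∧ ∀ n : ℕ, 2 ≤ n →
      Real.exp (c * Real.sqrt ((n : ℝ) * Real.log n)) ≤ growth S n := by
    intro h
    by_contra hcon
    apply h
    intro w hw x hx
    apply nil_of_forall S hS w hw x hx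
    intro s _
    by_contra hcon2
    push Not at hcon2
    exact hcon (growth_of_not_nil (p := p) S hS w 1 le_rfl hw x s hx (of_sub_one_mem s) hcon2)
  refine ⟨h1, ?_⟩
  rintro ⟨C, -, hC⟩
  by_contra h
  obtain ⟨c, hc, h2⟩ := h1 h
  exact not_le_exp_sqrt (growth S) c hc h2 C hC

end Pool.H67.Esq
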